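import Mathlib

set_option autoImplicit false

/-!
# Systems of exponentials in `L²(-π, π)`
-/

namespace Pool.Agent.H1.FB

open MeasureTheory

/-- The space `L²(-π, π)` of Mathlib. -/
noncomputable abbrev H0 := Lp ℂ 2 (volume.restrict (Set.Ioo (-Real.pi) Real.pi))

/-- The Hilbert space `L²(-π, π)`. -/
def H : Type := H0

/-- The norm and the addition of `H` are those of `L²(-π, π)`. -/
noncomputable instance instH : NormedAddCommGroup H := (inferInstance : NormedAddCommGroup H0)

/-- The inner product and the multiplication by scalars of `H` are those of `L²(-π, π)`. -/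
noncomputable instance instHI : InnerProductSpace ℂ H := (inferInstance : InnerProductSpace ℂ H0)

noncomputable instance instInnerH : Inner ℂ H := instHI.toInner

instance : CompleteSpace H := (inferInstance : CompleteSpace H0)

/-- The function `t ↦ exp (i l t)`. -/
noncomputable def expFun (l : ℂ) : ℝ → ℂ := fun x => Complex.exp (Complex.I * l * x)

lemma expFun_cont (l : ℂ) : Continuous (expFun l) := by
  unfold expFun
  fun_prop

lemma memLp_exp (l : ℂ) : MemLp (expFun l) 2 (volume.restrict (Set.Ioo (-Real.pi) Real.pi)) := by
  refine MemLp.of_bound (expFun_cont l).aestronglyMeasurable (Real.exp (|l.im| * Real.pi)) ?_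
  refine (ae_restrict_iff' measurableSet_Ioo).2 (Filter.Eventually.of_forall (fun x hx => ?_))
  unfold expFun
  rw [Complex.norm_exp]
  apply Real.exp_le_exp.2
  have h1 : (Complex.I * l * x).re = -(l.im * x) := by
    simp [Complex.mul_re, Complex.mul_im]
  rw [h1]
  calc -(l.im * x) ≤ |l.im * x| := neg_le_abs _
    _ = |l.im| * |x| := abs_mul _ _
    _ ≤ |l.im| * Real.pi := by
      apply mul_le_mul_of_nonneg_left _ (abs_nonneg _)
      exact abs_le.2 ⟨hx.1.le, hx.2.le⟩

/-- The element `e_l` of `L²(-π, π)`, `e_l(t) = exp (i l t)`. -/
noncomputable def e (l : ℂ) : H := ((memLp_exp l).toLp (expFun l) : H0)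

/-- The closed linear span of a set of vectors. -/
noncomputable def closedSpan (S : Set H) : Submodule ℂ H := (Submodule.span ℂ S).topologicalClosure

/-- `E(Λ)` has infinite defect: the orthogonal complement of its closed linear span is
infinite-dimensional. -/
def InfiniteDefect (Λ : Set ℂ) : Prop := ¬ FiniteDimensional ℂ (closedSpan (e '' Λ))ᗮ

/-- The family of vectors `x i` is a strong M-basis of `L²(-π, π)`: it is complete (the closed
linear span is the whole space), minimal (no member lies in the closed linear span of the others),
and for a biorthogonal family `y` (`⟨x i, y j⟩ = 1` for `i = j` and `0` for `i ≠ j`; the family is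
complete, so that there is only one such `y`) every vector `v` lies in the closed linear span of the
vectors `⟨v, y i⟩ x i`.  (The inner product of Mathlib is linear in the second variable, so that
`inner ℂ (y i) v` is `⟨v, y i⟩`.) -/
def IsStrongMBasis {ι : Type} (x : ι → H) : Prop :=
  closedSpan (Set.range x) = ⊤ ∧
  (∀ i, x i ∉ closedSpan (x '' {j | j ≠ i})) ∧
  ∃ y : ι → H, (∀ i, inner ℂ (y i) (x i) = 1) ∧ (∀ i j, i ≠ j → inner ℂ (y i) (x j) = 0) ∧
    ∀ v : H, v ∈ closedSpan (Set.range (fun i => inner ℂ (y i) v • x i))

end Pool.Agent.H1.FB
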