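import Pool.Agent.H1.FB.Seq

set_option autoImplicit false

/-!
# The two functions

`exists_f0`: a function vanishing at the additional points with nonzero value of the functional.
`exists_f1`: a function vanishing at the additional points and at infinitely many negative
non-integers.
-/

namespace Pool.Agent.H1.FB

open Filter Topology

lemma A0_bd {s z : ℕ → ℝ} {C : ℝ} (h : ∀ n, |s n| ≤ C * p n ^ 2 ∧ |z n| ≤ C * p n ^ 2) (n : ℕ) :
    |A0 s z n| ≤ 2 * C * p n := by
  have h1 := κ_le n
  have h2 := κ_ge n
  have h3 := p_pos n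
  have h4 := p_le n
  have h5 := pu n
  obtain ⟨h6, h7⟩ := h n
  have h8 := u_pos n
  have hC : 0 ≤ C * p n ^ 2 := (abs_nonneg _).trans h6
  unfold A0
  calc |κ n * s n - z n| ≤ |κ n * s n| + |z n| := abs_sub _ _
    _ = κ n * |s n| + |z n| := by rw [abs_mul, abs_of_pos (by linarith : (0:ℝ) < κ n)]
    _ ≤ (101 / 100 * u n) * (C * p n ^ 2) + C * p n ^ 2 := by gcongr
    _ = 101 / 100 * (p n * u n) * (C * p n) + C * p n ^ 2 := by ring
    _ ≤ 2 * C * p n := by
      rw [h5]
      have hC' : 0 ≤ C * p n := by
        have : C * p n ^ 2 = (C * p n) * p n := by ring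
        rw [this] at hC
        exact nonneg_of_mul_nonneg_left hC h3
      nlinarith

lemma A1_bd {s : ℕ → ℝ} {C : ℝ} (h : ∀ n, |s n| ≤ C * p n ^ 2) (n : ℕ) :
    |A1 s n| ≤ 2 * C * p n := by
  have h1 := κ_le n
  have h2 := κ_ge n
  have h3 := p_pos n
  have h5 := pu n
  have h6 := h n
  have h8 := u_pos n
  have hC : 0 ≤ C * p n ^ 2 := (abs_nonneg _).trans h6
  have hC' : 0 ≤ C * p n := by
    have : C * p n ^ 2 = (C * p n) * p n := by ring
    rw [this] at hC
    exact nonneg_of_mul_nonneg_left hC h3
  unfold A1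
  calc |-((κ n - 1) * s n)| = (κ n - 1) * |s n| := by
        rw [abs_neg, abs_mul, abs_of_pos (by linarith : (0:ℝ) < κ n - 1)]
    _ ≤ (101 / 100 * u n) * (C * p n ^ 2) := by gcongr; linarith
    _ = 101 / 100 * (p n * u n) * (C * p n) := by ring
    _ ≤ 2 * C * p n := by
      rw [h5]
      nlinarith

/-- a term of the series at `-y` -/
noncomputable def term (s z : ℕ → ℝ) (y : ℝ) (n : ℕ) : ℝ :=
  A0 s z n / (y + t n) + A1 s n / (y + t n + 1)

/-- the value of the series at `-y` -/
noncomputable def Psi (s z : ℕ → ℝ) (y : ℝ) : ℝ := ∑' n, term s z y n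

lemma term_bd {s z : ℕ → ℝ} {C : ℝ} (h : ∀ n, |s n| ≤ C * p n ^ 2 ∧ |z n| ≤ C * p n ^ 2)
    {y : ℝ} (hy : 0 < y) (n : ℕ) : ‖term s z y n‖ ≤ 4 * C * p n := by
  have h1 := A0_bd h n
  have h2 := A1_bd (fun n => (h n).1) n
  have h3 := t_ge n
  have h0 : 0 ≤ 2 * C * p n := (abs_nonneg _).trans h1
  have h4 : |A0 s z n / (y + t n)| ≤ 2 * C * p n := by
    rw [abs_div, abs_of_pos (by linarith : 0 < y + t n), div_le_iff₀ (by linarith)]
    nlinarith
  have h5 : |A1 s n / (y + t n + 1)| ≤ 2 * C * p n := by
    rw [abs_div, abs_of_pos (by linarith : 0 < y + t n + 1), div_le_iff₀ (by linarith)]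
    nlinarith
  rw [Real.norm_eq_abs]
  unfold term
  have := abs_add_le (A0 s z n / (y + t n)) (A1 s n / (y + t n + 1))
  linarith

lemma term_hasSum {s z : ℕ → ℝ} (h : Good s z) {y : ℝ} (hy : 0 < y) :
    HasSum (term s z y) (Psi s z y) := by
  obtain ⟨⟨C, hC⟩, -⟩ := h
  exact (Summable.of_norm_bounded (summable_p.mul_left (4 * C)) (term_bd hC hy)).hasSum

lemma Psi_cont {s z : ℕ → ℝ} (h : Good s z) : ContinuousOn (Psi s z) (Set.Ioi 0) := by
  obtain ⟨⟨C, hC⟩, -⟩ := h
  unfold Psi
  refine continuousOn_tsum (fun n => ?_) (summable_p.mul_left (4 * C))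
    (fun n y hy => term_bd hC hy n)
  have h1 : ∀ y ∈ Set.Ioi (0 : ℝ), y + t n ≠ 0 := fun y hy => by
    have := t_pos n
    have hy : 0 < y := hy
    linarith
  have h2 : ∀ y ∈ Set.Ioi (0 : ℝ), y + t n + 1 ≠ 0 := fun y hy => by
    have := t_pos n
    have hy : 0 < y := hy
    linarith
  unfold term
  refine ContinuousOn.add (ContinuousOn.div continuousOn_const ?_ h1)
    (ContinuousOn.div continuousOn_const ?_ h2)
  · exact (continuous_id.add continuous_const).continuousOn
  · exact ((continuous_id.add continuous_const).add continuous_const).continuousOn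

lemma Psi_add {s z s' z' : ℕ → ℝ} (h : Good s z) (h' : Good s' z') (r : ℝ) {y : ℝ} (hy : 0 < y) :
    Psi (fun n => s n + r * s' n) (fun n => z n + r * z' n) y = Psi s z y + r * Psi s' z' y := by
  have h1 := (term_hasSum h hy).add ((term_hasSum h' hy).mul_left r)
  unfold Psi at h1 ⊢
  rw [← h1.tsum_eq]
  congr 1
  ext n
  unfold term A0 A1
  ring

lemma y_term (s z : ℕ → ℝ) {y : ℝ} (hy : 0 < y) (n : ℕ) :
    y * term s z y n = (s n - z n) * (y / (y + t n)) +
      s n * ((κ n - 1) * y / ((y + t n) * (y + t n + 1))) := by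
  have h1 := t_pos n
  have h2 : y + t n ≠ 0 := by linarith
  have h3 : y + t n + 1 ≠ 0 := by linarith
  unfold term A0 A1
  field_simp
  ring

/-- the value at `y = t k`, when the functional vanishes -/
lemma sign_lemma {s z : ℕ → ℝ} (h : Good s z) (hL : HasSum (fun n => s n - z n) 0)
    (hs : ∀ n, |s n| ≤ 3 / 2 * p n ^ 2) (hz : ∀ n, |z n| ≤ 1 / 1000 * p n ^ 2) (k : ℕ) :
    |t k * Psi s z (t k) + s k / 2| ≤ p k ^ 2 / 10 := by
  have hy := t_pos k
  have h1 := ((term_hasSum h hy).mul_left (t k)).sub hL
  rw [sub_zero] at h1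
  have h2 : HasSum (fun n => if n = k then s k / 2 else 0) (s k / 2) := hasSum_ite_eq k _
  have h3 := h1.add h2
  have hpk := p_pos k
  have hb : HasSum (fun n => 2 * p k ^ 2 * p n + if n = k then p k ^ 2 / 1000 else 0)
      (2 * p k ^ 2 * (∑' n, p n) + p k ^ 2 / 1000) :=
    (summable_p.hasSum.mul_left _).add (hasSum_ite_eq k _)
  have h4 : ∀ n, ‖(t k * term s z (t k) n - (s n - z n)) + (if n = k then s k / 2 else 0)‖ ≤
      2 * p k ^ 2 * p n + if n = k then p k ^ 2 / 1000 else 0 := by
    intro n
    rw [y_term s z hy n, Real.norm_eq_abs]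
    have hpn := p_pos n
    have htn := t_pos n
    have hkn := κ_ge n
    have hkl := κ_le n
    have hpu := pu n
    have hun := u_pos n
    have hT : 0 < t k + t n := by linarith
    -- the last term
    have e1 : |s n * ((κ n - 1) * t k / ((t k + t n) * (t k + t n + 1)))| ≤
        2 * p n * p k ^ 4 := by
      rw [abs_mul]
      have e2 : |(κ n - 1) * t k / ((t k + t n) * (t k + t n + 1))| ≤ κ n * p k ^ 4 := by
        rw [abs_of_nonneg (by
          have : 0 ≤ κ n - 1 := by linarith
          positivity), ← t_inv]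
        rw [div_le_iff₀ (by positivity)]
        have e3 : κ n * (t k)⁻¹ * ((t k + t n) * (t k + t n + 1)) =
            κ n * (t k + t n) * ((t k + t n + 1) / t k) := by
          field_simp
        rw [e3]
        have e4 : 1 ≤ (t k + t n + 1) / t k := by
          rw [le_div_iff₀ hy]; linarith
        calc (κ n - 1) * t k ≤ κ n * (t k + t n) := by
              apply mul_le_mul <;> linarith
          _ ≤ _ := le_mul_of_one_le_right (by positivity) e4
      calc |s n| * |(κ n - 1) * t k / ((t k + t n) * (t k + t n + 1))|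
          ≤ (3 / 2 * p n ^ 2) * (κ n * p k ^ 4) := by
            apply mul_le_mul (hs n) e2 (abs_nonneg _) (by positivity)
        _ ≤ (3 / 2 * p n ^ 2) * ((101 / 100 * u n) * p k ^ 4) := by gcongr
        _ = (303 / 200) * (p n * u n) * p n * p k ^ 4 := by ring
        _ ≤ 2 * p n * p k ^ 4 := by
          rw [hpu]
          have : 0 < p n * p k ^ 4 := by positivity
          nlinarith
    have e5 : 2 * p n * p k ^ 4 ≤ p k ^ 2 * p n * (1 / 1000) := by
      have hk := p_le k
      have : p k ^ 2 ≤ (1 / 100) ^ 2 := by gcongr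
      have h0 : 0 < p k ^ 2 * p n := by positivity
      calc 2 * p n * p k ^ 4 = (p k ^ 2 * p n) * (2 * p k ^ 2) := by ring
        _ ≤ (p k ^ 2 * p n) * (1 / 1000) := by
          apply mul_le_mul_of_nonneg_left _ h0.le
          linarith
    by_cases hnk : n = k
    · subst hnk
      simp only [if_true]
      have e6 : (s n - z n) * (t n / (t n + t n)) = (s n - z n) / 2 := by
        field_simp
        norm_num
      rw [e6]
      have e7 : (s n - z n) / 2 + s n * ((κ n - 1) * t n / ((t n + t n) * (t n + t n + 1))) -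
          (s n - z n) + s n / 2 =
          z n / 2 + s n * ((κ n - 1) * t n / ((t n + t n) * (t n + t n + 1))) := by ring
      rw [e7]
      have e8 := abs_add_le (z n / 2) (s n * ((κ n - 1) * t n / ((t n + t n) * (t n + t n + 1))))
      have e9 : |z n / 2| = |z n| / 2 := by rw [abs_div, abs_two]
      rw [e9] at e8
      have := hz n
      have h0 : 0 < p n ^ 2 * p n := by positivity
      nlinarith
    · simp only [if_neg hnk, add_zero]
      have e6 : (s n - z n) * (t k / (t k + t n)) +
          s n * ((κ n - 1) * t k / ((t k + t n) * (t k + t n + 1))) - (s n - z n) =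
          -((s n - z n) * (t n / (t k + t n))) +
          s n * ((κ n - 1) * t k / ((t k + t n) * (t k + t n + 1))) := by
        field_simp
        ring
      rw [e6]
      have e7 : |(s n - z n) * (t n / (t k + t n))| ≤ (1501 / 1000) * (p k ^ 2 * p n) := by
        rw [abs_mul, abs_of_pos (by positivity : 0 < t n / (t k + t n))]
        have f1 : |s n - z n| ≤ (1501 / 1000) * p n ^ 2 := by
          have := abs_sub (s n) (z n)
          have := hs n
          have := hz n
          linarith
        have f2 : p n ^ 2 * (t n / (t k + t n)) ≤ p k ^ 2 * p n := by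
          have hk := u_pos k
          have g1 : u n ^ 3 * u k ^ 2 ≤ t k + t n := by
            rcases lt_or_gt_of_ne hnk with g | g
            · have g2 := u_sq g
              have g3 := u_ge n
              calc u n ^ 3 * u k ^ 2 ≤ u n ^ 4 * u k ^ 2 := by
                    gcongr
                    · linarith
                    · norm_num
                _ = (u n ^ 2) ^ 2 * u k ^ 2 := by ring
                _ ≤ u k ^ 2 * u k ^ 2 := by gcongr
                _ = t k := by unfold t; ring
                _ ≤ _ := by linarith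
            · have g2 := u_sq g
              calc u n ^ 3 * u k ^ 2 ≤ u n ^ 3 * u n := by gcongr
                _ = t n := by unfold t; ring
                _ ≤ _ := by linarith
          have g2 : p n ^ 2 * t n = u n ^ 2 := by
            unfold t
            calc p n ^ 2 * u n ^ 4 = (p n * u n) ^ 2 * u n ^ 2 := by ring
              _ = u n ^ 2 := by rw [hpu]; ring
          rw [← mul_div_assoc, g2, div_le_iff₀ hT]
          calc u n ^ 2 = (p k * u k) ^ 2 * (p n * u n) * u n ^ 2 := by rw [pu, pu]; ring
            _ = p k ^ 2 * p n * (u n ^ 3 * u k ^ 2) := by ring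
            _ ≤ p k ^ 2 * p n * (t k + t n) := by gcongr
        calc |s n - z n| * (t n / (t k + t n)) ≤
            ((1501 / 1000) * p n ^ 2) * (t n / (t k + t n)) := by gcongr
          _ = (1501 / 1000) * (p n ^ 2 * (t n / (t k + t n))) := by ring
          _ ≤ _ := by gcongr
      have e8 := abs_add_le (-((s n - z n) * (t n / (t k + t n))))
        (s n * ((κ n - 1) * t k / ((t k + t n) * (t k + t n + 1))))
      rw [abs_neg] at e8
      have h0 : 0 < p k ^ 2 * p n := by positivity
      nlinarith
  have h5 : ‖t k * Psi s z (t k) + s k / 2‖ ≤ 2 * p k ^ 2 * (∑' n, p n) + p k ^ 2 / 1000 := by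
    rw [← h3.tsum_eq]
    exact tsum_of_norm_bounded hb h4
  rw [Real.norm_eq_abs] at h5
  refine h5.trans ?_
  have h6 := tsum_p
  have h7 : 0 < p k ^ 2 := by positivity
  nlinarith

/-- a function without zeros on the negative half line -/
lemma neg_lemma {s z : ℕ → ℝ} (h : Good s z) (hL : HasSum (fun n => s n - z n) 0)
    (hs0 : s 0 < 0) (hs : ∀ n, 1 ≤ n → s n = p n ^ 2) (hz : ∀ n, |z n| ≤ 1 / 1000 * p n ^ 2)
    {y : ℝ} (hy : 0 < y) : Psi s z y < 0 := by
  have h0 : 0 < y + t 0 := by linarith [t_pos 0]
  have h1 := ((term_hasSum h hy).mul_left y).sub (hL.mul_right (y / (y + t 0)))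
  rw [zero_mul, sub_zero] at h1
  have h2 : ∀ n, 0 ≤ -(y * term s z y n - (s n - z n) * (y / (y + t 0))) := by
    intro n
    rw [y_term s z hy n]
    have htn := t_pos n
    have hT : 0 < y + t n := by linarith
    have hkn := κ_ge n
    rcases Nat.eq_zero_or_pos n with hn | hn
    · subst hn
      have e1 : 0 ≤ (κ 0 - 1) * y / ((y + t 0) * (y + t 0 + 1)) := by
        have : 0 ≤ κ 0 - 1 := by linarith
        positivity
      nlinarith
    · have e1 := hs n hn
      have hpn := p_pos n
      have e2 : s n / 2 ≤ s n - z n := by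
        have := hz n
        have := le_abs_self (z n)
        have h0 : 0 < p n ^ 2 := by positivity
        rw [e1]
        linarith
      have e3 : 0 < s n := by rw [e1]; positivity
      have e4 : 2 * (κ n - 1) ≤ t n - t 0 := by
        have g1 := u_sq hn
        have g2 : t 0 ≤ u n ^ 2 := by
          unfold t
          calc u 0 ^ 4 = (u 0 ^ 2) ^ 2 := by ring
            _ ≤ u n ^ 2 := by gcongr
        have g3 := u_ge n
        have g4 : t n = u n ^ 4 := rfl
        have g5 : u n ^ 2 * 10000 ≤ u n ^ 4 := by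
          have : (100 : ℝ) ^ 2 ≤ u n ^ 2 := by gcongr
          nlinarith
        unfold κ
        nlinarith
      have e5 : y / (y + t 0) - y / (y + t n) = y * (t n - t 0) / ((y + t 0) * (y + t n)) := by
        field_simp
        ring
      have e6 : -((s n - z n) * (y / (y + t n)) + s n * ((κ n - 1) * y / ((y + t n) * (y + t n + 1)))
          - (s n - z n) * (y / (y + t 0))) =
          (s n - z n) * (y * (t n - t 0) / ((y + t 0) * (y + t n))) -
          s n * ((κ n - 1) * y / ((y + t n) * (y + t n + 1))) := by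
        rw [← e5]; ring
      rw [e6]
      have e7 : (κ n - 1) * y / ((y + t n) * (y + t n + 1)) ≤
          (1 / 2) * (y * (t n - t 0) / ((y + t 0) * (y + t n))) := by
        have g1 : 0 < t n - t 0 := by linarith
        rw [div_le_iff₀ (by positivity)]
        have g2 : (1 / 2) * (y * (t n - t 0) / ((y + t 0) * (y + t n))) *
            ((y + t n) * (y + t n + 1)) = (1 / 2) * (y * (t n - t 0)) * ((y + t n + 1) / (y + t 0)) := by
          field_simp
        rw [g2]
        have g3 : 1 ≤ (y + t n + 1) / (y + t 0) := by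
          rw [le_div_iff₀ h0]; linarith
        calc (κ n - 1) * y ≤ (1 / 2) * (y * (t n - t 0)) := by nlinarith
          _ ≤ _ := le_mul_of_one_le_right (by positivity) g3
      have e8 : 0 ≤ y * (t n - t 0) / ((y + t 0) * (y + t n)) := by
        have g1 : 0 < t n - t 0 := by linarith
        positivity
      nlinarith
  have h3 := h1.neg
  have h4 := le_hasSum h3 0 (fun n _ => h2 n)
  have h5 : y * term s z y 0 - (s 0 - z 0) * (y / (y + t 0)) < 0 := by
    rw [y_term s z hy 0]
    have hkn := κ_ge 0
    have e1 : 0 < (κ 0 - 1) * y / ((y + t 0) * (y + t 0 + 1)) := by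
      have : 0 < κ 0 - 1 := by linarith
      positivity
    nlinarith
  have h6 : y * Psi s z y < 0 := by linarith
  by_contra h7
  rw [not_lt] at h7
  have : 0 ≤ y * Psi s z y := by positivity
  linarith

end Pool.Agent.H1.FB
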