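import Pool.Agent.H1.FB.Ex

set_option autoImplicit false

/-!
# The two functions, continued
-/

namespace Pool.Agent.H1.FB

open Filter Topology

lemma summable_p2 : Summable (fun n => p n ^ 2) :=
  Summable.of_nonneg_of_le (fun n => by positivity) (fun n => by
    have := p_pos n; have := p_le n; nlinarith) summable_p

lemma tsum_p2 : ∑' n, p n ^ 2 ≤ 1 / 9900 := by
  have h1 : ∀ n, p n ^ 2 ≤ (1 / 100) * p n := fun n => by
    have := p_pos n; have := p_le n; nlinarith
  have h2 := summable_p2.tsum_le_tsum h1 (summable_p.mul_left _)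
  rw [tsum_mul_left] at h2
  have := tsum_p
  linarith

lemma p0 : p 0 = 1 / 100 := by unfold p u; norm_num

lemma p1 : p 1 = 1 / 10000 := by unfold p u; norm_num

lemma Good_summable_s {s z : ℕ → ℝ} (h : Good s z) : Summable s := by
  obtain ⟨⟨C, hC⟩, -⟩ := h
  exact Summable.of_norm_bounded (summable_p2.mul_left C) (fun n => (hC n).1)

lemma Good_summable_z {s z : ℕ → ℝ} (h : Good s z) : Summable z := by
  obtain ⟨⟨C, hC⟩, -⟩ := h
  exact Summable.of_norm_bounded (summable_p2.mul_left C) (fun n => (hC n).2)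

lemma tsum_z_le {z : ℕ → ℝ} {A : ℝ} (hz : ∀ n, |z n| ≤ A * p n ^ 2) (hA : 0 ≤ A) :
    |∑' n, z n| ≤ A / 9900 := by
  have h1 : ‖∑' n, z n‖ ≤ A * ∑' n, p n ^ 2 :=
    tsum_of_norm_bounded (summable_p2.hasSum.mul_left A) hz
  have h2 := tsum_p2
  rw [Real.norm_eq_abs] at h1
  nlinarith

/-- the function with nonzero value of the functional -/
theorem exists_f0 : ∃ z : ℕ → ℝ, (∀ n, |z n| ≤ 1 / 5 * p n ^ 2) ∧
    Good (fun n => if n = 0 then 1 else 0) z ∧ ∃ l : ℝ, 1 / 2 ≤ l ∧
      HasSum (fun n => (if n = 0 then (1 : ℝ) else 0) - z n) l := by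
  obtain ⟨z, hz, hg⟩ := exists_z (fun n => if n = 0 then 1 else 0) 1 one_pos
    (fun n => by split_ifs <;> simp) ⟨10000, fun n => by
      split_ifs with h
      · subst h; rw [p0]; norm_num
      · rw [abs_zero]; positivity⟩
  refine ⟨z, hz, hg, 1 - ∑' n, z n, ?_, (hasSum_ite_eq 0 _).sub (Good_summable_z hg).hasSum⟩
  have h1 := tsum_z_le hz (by norm_num)
  have h2 := le_abs_self (∑' n, z n)
  linarith

/-- functions with value zero of the functional -/
theorem exists_pair (σ : ℕ → ℝ) (hσ : ∀ n, |σ n| ≤ 1) :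
    ∃ s z : ℕ → ℝ, Good s z ∧ HasSum (fun n => s n - z n) 0 ∧ (∀ n, 1 ≤ n → s n = σ n * p n ^ 2) ∧
      |s 0| ≤ 1 / 10000 * (1 / 2) ∧ (∀ n, |z n| ≤ 1 / 2000 * p n ^ 2) ∧
      ((∀ n, σ n = 1) → s 0 < 0) := by
  obtain ⟨z0, hz0, hg0, l, hl, hl'⟩ := exists_f0
  have hp1 : ∀ n, 1 ≤ n → p n ≤ 1 / 10000 := by
    intro n hn
    have h1 : p n ≤ p 0 ^ 2 := p_sq hn
    rw [p0] at h1
    linarith
  obtain ⟨z, hz, hg⟩ := exists_z (fun n => if n = 0 then 0 else σ n * p n ^ 2) (1 / 100000000)
    (by norm_num)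
    (fun n => by
      split_ifs with h
      · rw [abs_zero]; norm_num
      · rw [abs_mul, abs_of_pos (by have := p_pos n; positivity : 0 < p n ^ 2)]
        have h1 := hp1 n (by omega)
        have h2 := p_pos n
        have h3 := hσ n
        have h4 : p n ^ 2 ≤ (1 / 10000) ^ 2 := by gcongr
        nlinarith [abs_nonneg (σ n)])
    ⟨1, fun n => by
      split_ifs with h
      · rw [abs_zero]; positivity
      · rw [abs_mul, abs_of_pos (by have := p_pos n; positivity : 0 < p n ^ 2)]
        have := p_pos n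
        have h0 : 0 < p n ^ 2 := by positivity
        nlinarith [hσ n]⟩
  set s : ℕ → ℝ := fun n => if n = 0 then 0 else σ n * p n ^ 2 with hs
  have hss := Good_summable_s hg
  have hzs := Good_summable_z hg
  -- the value of the functional
  set L : ℝ := ∑' n, s n - ∑' n, z n with hL
  have hLs : HasSum (fun n => s n - z n) L := hss.hasSum.sub hzs.hasSum
  have hsb : ∀ n, |s n| ≤ 1 / 10000 * p n := by
    intro n
    have h2 := p_pos n
    simp only [hs]
    split_ifs with h
    · rw [abs_zero]; positivity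
    · rw [abs_mul, abs_of_pos (by positivity : 0 < p n ^ 2)]
      have h1 := hp1 n (by omega)
      have h3 := hσ n
      have h4 : p n ^ 2 ≤ (1 / 10000) * p n := by nlinarith
      have h5 : 0 < p n ^ 2 := by positivity
      nlinarith
  have hLb : |L| ≤ 1 / 500000 := by
    have h1 : ‖∑' n, s n‖ ≤ 1 / 10000 * ∑' n, p n :=
      tsum_of_norm_bounded (summable_p.hasSum.mul_left _) hsb
    have h2 := tsum_p
    have h3 := tsum_z_le hz (by norm_num)
    have h4 := abs_sub (∑' n, s n) (∑' n, z n)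
    rw [Real.norm_eq_abs] at h1
    rw [hL]
    norm_num at h3 ⊢
    linarith
  have hl0 : l ≠ 0 := by linarith
  have hc : |-(L / l)| ≤ 1 / 250000 := by
    rw [abs_neg, abs_div, abs_of_pos (by linarith : 0 < l), div_le_iff₀ (by linarith)]
    linarith
  refine ⟨_, _, hg.add hg0 (-(L / l)), ?_, fun n hn => ?_, ?_, fun n => ?_, fun h1 => ?_⟩
  · have h1 := hLs.add (hl'.mul_left (-(L / l)))
    have h2 : L + -(L / l) * l = 0 := by field_simp; ring
    rw [h2] at h1
    convert h1 using 1
    ext n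
    ring
  · have h1 : n ≠ 0 := by omega
    simp only [hs, if_neg h1, mul_zero, add_zero]
  · simp only [hs, if_true, mul_one, zero_add]
    linarith
  · have h1 := abs_add_le (z n) (-(L / l) * z0 n)
    rw [abs_mul] at h1
    have h2 := hz n
    have h3 := hz0 n
    have h4 : |-(L / l)| * |z0 n| ≤ 1 / 250000 * (1 / 5 * p n ^ 2) := by
      apply mul_le_mul hc h3 (abs_nonneg _) (by norm_num)
    have h5 : 0 < p n ^ 2 := by have := p_pos n; positivity
    linarith
  · simp only [hs, if_true, mul_one, zero_add]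
    have h2 : 0 < L := by
      have h3 : p 1 ^ 2 ≤ ∑' n, s n := by
        have h4 : s 1 = p 1 ^ 2 := by simp [hs, h1]
        rw [← h4]
        refine hss.le_tsum 1 (fun n _ => ?_)
        simp only [hs]
        split_ifs
        · exact le_rfl
        · rw [h1]; positivity
      rw [p1] at h3
      have h5 := tsum_z_le hz (by norm_num)
      have h6 := le_abs_self (∑' n, z n)
      rw [hL]
      norm_num at h3 h5 ⊢
      linarith
    have : 0 < L / l := div_pos h2 (by linarith)
    linarith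

lemma t_tendsto : Tendsto t atTop atTop := by
  refine tendsto_atTop_mono (fun n => ?_)
    (tendsto_pow_atTop_atTop_of_one_lt (by norm_num : (1 : ℝ) < 100))
  have h1 := u_pow n
  have h2 := u_ge n
  have h3 : (100 : ℝ) ^ n ≤ 100 ^ (n + 1) := pow_le_pow_right₀ (by norm_num) (by omega)
  unfold t
  have h4 : u n ≤ u n ^ 4 := le_self_pow₀ (by linarith) (by norm_num)
  linarith

lemma t_lt {m n : ℕ} (h : m < n) : t m < t n := by
  have h1 := u_sq h
  have h2 := u_ge m
  have h3 := u_ge n
  have h4 : u m < u n := by nlinarith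
  unfold t
  exact pow_lt_pow_left₀ h4 (by linarith) (by norm_num)

/-- the function with infinitely many negative zeros -/
theorem exists_f1 : ∃ s z : ℕ → ℝ, ∃ w : ℕ → ℝ, Good s z ∧ (∀ n, 1 ≤ n → s n ≠ 0) ∧
    StrictMono w ∧ Tendsto w atTop atTop ∧ (∀ j, 0 < w j) ∧ (∀ j (N : ℤ), w j ≠ N) ∧
    ∀ j, Psi s z (w j) = 0 := by
  obtain ⟨s, z, hg, hL, hs, hs0, hz, -⟩ := exists_pair (fun n => (-1) ^ n) (fun n => by simp)
  obtain ⟨s', z', hg', hL', hs', hs0', hz', hneg⟩ := exists_pair (fun _ => 1) (fun n => by simp)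
  have hneg' := hneg (fun _ => rfl)
  -- the parameter
  have hne : ∀ y : ℝ, 0 < y → Psi s' z' y ≠ 0 := fun y hy =>
    (neg_lemma hg' hL' hneg' (fun n hn => by rw [hs' n hn, one_mul]) (fun n => by
      have h1 := hz' n
      have h2 : 0 < p n ^ 2 := by have := p_pos n; positivity
      linarith) hy).ne
  obtain ⟨θ, hθ, hθ'⟩ : ∃ θ ∈ Set.Ioo (0 : ℝ) (1 / 2),
      θ ∈ (Set.range (fun N : ℕ => -(Psi s z N / Psi s' z' N)))ᶜ :=
    ((Set.countable_range (fun N : ℕ => -(Psi s z N / Psi s' z' N))).dense_compl ℝ).exists_mem_open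
      isOpen_Ioo (Set.nonempty_Ioo.2 (by norm_num)) |>.imp (fun θ h => ⟨h.2, h.1⟩)
  obtain ⟨hθ1, hθ2⟩ := hθ
  have hG := hg.add hg' θ
  have hLG : HasSum (fun n => (s n + θ * s' n) - (z n + θ * z' n)) 0 := by
    have h1 := hL.add (hL'.mul_left θ)
    rw [mul_zero, add_zero] at h1
    convert h1 using 1
    ext n
    ring
  set S : ℕ → ℝ := fun n => s n + θ * s' n with hS
  set Z : ℕ → ℝ := fun n => z n + θ * z' n with hZ
  have hSn : ∀ n, 1 ≤ n → S n = ((-1) ^ n + θ) * p n ^ 2 := by
    intro n hn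
    simp only [hS]
    rw [hs n hn, hs' n hn]
    ring
  have hSb : ∀ n, |S n| ≤ 3 / 2 * p n ^ 2 := by
    intro n
    rcases Nat.eq_zero_or_pos n with hn | hn
    · subst hn
      simp only [hS]
      have h1 := abs_add_le (s 0) (θ * s' 0)
      rw [abs_mul, abs_of_pos hθ1] at h1
      rw [p0]
      nlinarith [abs_nonneg (s' 0)]
    · rw [hSn n hn, abs_mul, abs_of_pos (by have := p_pos n; positivity : 0 < p n ^ 2)]
      have h1 := abs_add_le ((-1 : ℝ) ^ n) θ
      rw [abs_pow, abs_neg, abs_one, one_pow, abs_of_pos hθ1] at h1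
      have h2 : 0 < p n ^ 2 := by have := p_pos n; positivity
      nlinarith
  have hZb : ∀ n, |Z n| ≤ 1 / 1000 * p n ^ 2 := by
    intro n
    simp only [hZ]
    have h1 := abs_add_le (z n) (θ * z' n)
    rw [abs_mul, abs_of_pos hθ1] at h1
    have h2 := hz n
    have h3 := hz' n
    nlinarith [abs_nonneg (z' n)]
  have hsign : ∀ k, 1 ≤ k → (Even k → Psi S Z (t k) < 0) ∧ (Odd k → 0 < Psi S Z (t k)) := by
    intro k hk
    have h1 := sign_lemma hG hLG hSb hZb k
    have h2 := t_pos k
    have h3 : 0 < p k ^ 2 := by have := p_pos k; positivity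
    rw [hSn k hk] at h1
    obtain ⟨h5, h6⟩ := abs_le.1 h1
    constructor
    · intro hev
      rw [hev.neg_one_pow] at h6
      have h7 : t k * Psi S Z (t k) < 0 := by
        nlinarith
      by_contra h8
      rw [not_lt] at h8
      have : 0 ≤ t k * Psi S Z (t k) := by positivity
      linarith
    · intro hod
      rw [hod.neg_one_pow] at h5
      have h7 : 0 < t k * Psi S Z (t k) := by
        nlinarith
      exact (mul_pos_iff_of_pos_left h2).1 h7
  -- the zeros
  have hcont := Psi_cont hG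
  have hex : ∀ j : ℕ, ∃ w ∈ Set.Ioo (t (j + 1)) (t (j + 2)), Psi S Z w = 0 := by
    intro j
    have h1 : t (j + 1) < t (j + 2) := t_lt (by omega)
    have h2 : ContinuousOn (Psi S Z) (Set.Icc (t (j + 1)) (t (j + 2))) :=
      hcont.mono (fun y hy => lt_of_lt_of_le (t_pos _) hy.1)
    rcases Nat.even_or_odd (j + 1) with h | h
    · have h3 := (hsign (j + 1) (by omega)).1 h
      have h4 := (hsign (j + 2) (by omega)).2 (by
        have := h.add_one
        exact this)
      exact intermediate_value_Ioo h1.le h2 ⟨h3, h4⟩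
    · have h3 := (hsign (j + 1) (by omega)).2 h
      have h4 := (hsign (j + 2) (by omega)).1 (by
        have := h.add_one
        exact this)
      exact intermediate_value_Ioo' h1.le h2 ⟨h4, h3⟩
  choose w hw hw0 using hex
  have hwpos : ∀ j, 0 < w j := fun j => lt_trans (t_pos _) (hw j).1
  refine ⟨S, Z, w, hG, fun n hn => ?_, strictMono_nat_of_lt_succ (fun j => ?_), ?_, hwpos,
    fun j N hN => ?_, hw0⟩
  · rw [hSn n hn]
    have h2 : 0 < p n ^ 2 := by have := p_pos n; positivity
    refine mul_ne_zero ?_ h2.ne'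
    rcases Nat.even_or_odd n with h | h
    · rw [h.neg_one_pow]; linarith
    · rw [h.neg_one_pow]; linarith
  · exact lt_trans (hw j).2 (hw (j + 1)).1
  · refine tendsto_atTop_mono (fun j => (hw j).1.le) ?_
    exact t_tendsto.comp (tendsto_add_atTop_nat 1)
  · have h1 := hwpos j
    rw [hN] at h1
    have h2 : 0 < N := by exact_mod_cast h1
    obtain ⟨M, rfl⟩ := Int.eq_ofNat_of_zero_le h2.le
    have h3 := hw0 j
    have h4 := Psi_add hg hg' θ h1
    rw [hN] at h3
    have h5 : Psi s z ((M : ℤ) : ℝ) + θ * Psi s' z' ((M : ℤ) : ℝ) = 0 := by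
      rw [← h4]; exact h3
    apply hθ'
    refine ⟨M, ?_⟩
    have h6 := hne _ h1
    have h7 : ((M : ℤ) : ℝ) = (M : ℝ) := by norm_num
    rw [h7] at h5 h6
    simp only
    field_simp
    linarith

end Pool.Agent.H1.FB
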