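import Pool.Agent.H1.FB.Main

set_option autoImplicit false

/-!
# The system which can not be complemented
-/

namespace Pool.Agent.H1.FB

open MeasureTheory Filter Topology

lemma mem_closedSpan_inner {S : Set H} {x0 v : H} (h : ∀ x ∈ S, inner ℂ x0 x = 0)
    (hv : v ∈ closedSpan S) : inner ℂ x0 v = 0 := by
  unfold closedSpan at hv
  have h1 : Submodule.span ℂ S ≤ (Submodule.span ℂ {x0})ᗮ := by
    rw [Submodule.span_le]
    intro x hx
    rw [SetLike.mem_coe, Submodule.mem_orthogonal_singleton_iff_inner_right]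
    exact h x hx
  have h2 := Submodule.topologicalClosure_minimal _ h1 (Submodule.isClosed_orthogonal _)
  have h3 := h2 hv
  rwa [Submodule.mem_orthogonal_singleton_iff_inner_right] at h3

/-- the set of frequencies (real) -/
def SL (w : ℕ → ℝ) : Set ℝ := SA ∪ {l | ∃ j, l = -w (2 * j)}

/-- the functional does not vanish identically -/
lemma L_ne {x0 : H} (h : ∀ f ∈ V, inner ℂ x0 f = ∑' n, (a0 f n + a1 f n)) : x0 ≠ 0 := by
  intro h0
  obtain ⟨z, -, hg, l, hl, hs⟩ := exists_f0
  obtain ⟨f, hf, h1, h2⟩ := good_mem hg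
  have h3 := h f hf
  rw [h0, inner_zero_left] at h3
  have h4 : HasSum (fun n => a0 f n + a1 f n) (l : ℂ) := by
    refine hasSum_congr' (Complex.hasSum_ofReal.2 hs) (fun n => ?_)
    rw [h1, h2, ← Complex.ofReal_add]
    congr 1
    unfold A0 A1
    ring
  rw [h4.tsum_eq] at h3
  have h5 : l = 0 := by exact_mod_cast h3.symm
  linarith

/-- no strong M-basis contains the system -/
theorem not_basis {w : ℕ → ℝ} (hm : StrictMono w) (hw : Tendsto w atTop atTop)
    (hw0 : ∀ j, 0 < w j) (hw1 : ∀ j (N : ℤ), w j ≠ N) {ι : Type} {x : ι → H}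
    (hx : IsStrongMBasis x) (hL : ∀ l ∈ SL w, e ((l : ℝ) : ℂ) ∈ Set.range x) : False := by
  obtain ⟨x0, hx0, hrep⟩ := exists_rep hw hw0 hw1
  have hne := L_ne hrep
  obtain ⟨-, -, y, hy1, hy2, hy3⟩ := hx
  -- orthogonality of `x0` to all the vectors
  have key : ∀ i, inner ℂ x0 (inner ℂ (y i) x0 • x i) = 0 := by
    intro i
    rw [inner_smul_right]
    by_cases hi : ∃ l ∈ SA, x i = e ((l : ℝ) : ℂ)
    · obtain ⟨l, hl, hil⟩ := hi
      have h1 : inner ℂ x0 (e ((l : ℝ) : ℂ)) = 0 := by
        rw [← inner_conj_symm, mem_V.1 hx0 l hl, map_zero]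
      rw [hil, h1, mul_zero]
    · push Not at hi
      have hyV : y i ∈ V := by
        rw [mem_V]
        intro l hl
        obtain ⟨j, hj⟩ := hL l (Or.inl hl)
        have hij : i ≠ j := by
          rintro rfl
          exact hi l hl hj
        rw [← hj, ← inner_conj_symm, hy2 i j hij, map_zero]
      -- the vector `y i` is orthogonal to all but at most one of the remaining ones
      have hfin : ∃ N, ∀ k, N ≤ k → inner ℂ (e ((-w (2 * k) : ℝ) : ℂ)) (y i) = 0 := by
        by_cases hb : ∃ k0, x i = e ((-w (2 * k0) : ℝ) : ℂ)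
        · obtain ⟨k0, hk0⟩ := hb
          refine ⟨k0 + 1, fun k hk => ?_⟩
          obtain ⟨j, hj⟩ := hL (-w (2 * k)) (Or.inr ⟨k, rfl⟩)
          have hij : i ≠ j := by
            rintro rfl
            rw [hk0] at hj
            have h1 := e_inj hj
            have h2 : w (2 * k0) < w (2 * k) := hm (by omega)
            linarith
          rw [← hj, ← inner_conj_symm, hy2 i j hij, map_zero]
        · push Not at hb
          refine ⟨0, fun k _ => ?_⟩
          obtain ⟨j, hj⟩ := hL (-w (2 * k)) (Or.inr ⟨k, rfl⟩)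
          have hij : i ≠ j := by
            rintro rfl
            exact hb k hj
          rw [← hj, ← inner_conj_symm, hy2 i j hij, map_zero]
      have h1 := V_lim hyV hw hw0 hw1
      rw [← hrep _ hyV] at h1
      have h2 : ∃ᶠ j in atTop, (-(w j / cf (-w j) : ℝ) : ℂ) *
          inner ℂ (e ((-w j : ℝ) : ℂ)) (y i) = 0 := by
        rw [frequently_atTop]
        intro N
        obtain ⟨M, hM⟩ := hfin
        refine ⟨2 * (N + M), by omega, ?_⟩
        rw [hM (N + M) (by omega), mul_zero]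
      have h3 : inner ℂ x0 (y i) = 0 :=
        tendsto_nhds_unique_of_frequently_eq h1 tendsto_const_nhds h2
      have h4 : inner ℂ (y i) x0 = 0 := by
        rw [← inner_conj_symm, h3, map_zero]
      rw [h4, zero_mul]
  have h1 := hy3 x0
  have h2 := mem_closedSpan_inner (x0 := x0) (by
    rintro v ⟨i, rfl⟩
    exact key i) h1
  exact hne (inner_self_eq_zero.1 h2)

/-- the partial fraction identity behind the division -/
lemma div_sum {s z : ℕ → ℝ} {v l Ps R : ℝ} (hv : 0 < v) (hlv : l + v ≠ 0)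
    (hl : ∀ n, l - t n ≠ 0 ∧ l - t n - 1 ≠ 0)
    (h1 : HasSum (term s z v) Ps)
    (h2 : HasSum (fun n => A0 s z n / (l - t n) + A1 s n / (l - t n - 1)) R) :
    HasSum (fun n => A0 s z n / (t n + v) / (l - t n) + A1 s n / (t n + 1 + v) / (l - t n - 1))
      ((Ps + R) / (l + v)) := by
  have h3 := (h1.add h2).div_const (l + v)
  refine hasSum_congr' h3 (fun n => ?_)
  have h4 := t_pos n
  have h5 : v + t n ≠ 0 := by linarith
  have h6 : v + t n + 1 ≠ 0 := by linarith
  have h7 : t n + v ≠ 0 := by linarith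
  have h8 : t n + 1 + v ≠ 0 := by linarith
  obtain ⟨h9, h10⟩ := hl n
  unfold term
  have e1 : t n + v = v + t n := by ring
  have e2 : t n + 1 + v = v + t n + 1 := by ring
  rw [e1, e2]
  have e3 : A0 s z n / (v + t n) / (l - t n) =
      (A0 s z n / (v + t n) + A0 s z n / (l - t n)) / (l + v) := by
    field_simp
    ring
  have e4 : A1 s n / (v + t n + 1) / (l - t n - 1) =
      (A1 s n / (v + t n + 1) + A1 s n / (l - t n - 1)) / (l + v) := by
    field_simp
    ring
  rw [e3, e4]
  ring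

/-- the vectors orthogonal to the system -/
theorem exists_F {s z w : ℕ → ℝ} (hg : Good s z) (hm : StrictMono w)
    (hw0 : ∀ j, 0 < w j) (hw1 : ∀ j (N : ℤ), w j ≠ N) (hz : ∀ j, Psi s z (w j) = 0) (j : ℕ) :
    ∃ f : H, (∀ l ∈ SL w, inner ℂ (e ((l : ℝ) : ℂ)) f = 0) ∧
      ∀ n, a1 f n = ((A1 s n / (t n + 1 + w (2 * j + 1)) : ℝ) : ℂ) := by
  obtain ⟨C, hC⟩ := hg.1
  have hv := hw0 (2 * j + 1)
  set v := w (2 * j + 1) with hvdef
  have hb0 : ∀ n, |A0 s z n / (t n + v)| ≤ 2 * C * p n := by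
    intro n
    have h1 := A0_bd hC n
    have h2 := t_ge n
    rw [abs_div, abs_of_pos (by linarith : 0 < t n + v)]
    exact (div_le_self (abs_nonneg _) (by linarith)).trans h1
  have hb1 : ∀ n, |A1 s n / (t n + 1 + v)| ≤ 2 * C * p n := by
    intro n
    have h1 := A1_bd (fun n => (hC n).1) n
    have h2 := t_ge n
    rw [abs_div, abs_of_pos (by linarith : 0 < t n + 1 + v)]
    exact (div_le_self (abs_nonneg _) (by linarith)).trans h1
  obtain ⟨f, h0, h1, h2⟩ := exists_vec hb0 hb1
  have hP := term_hasSum hg hv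
  rw [hvdef, hz, ← hvdef] at hP
  refine ⟨f, ?_, h1⟩
  rintro l ((⟨k, rfl, hk⟩ | ⟨n, rfl⟩) | ⟨i, rfl⟩)
  · exact inner_int_zero (h2 k hk)
  · apply inner_zero h0 h1 h2 (τ_ne n)
    have h3 : 0 < τ n := by unfold τ; linarith [t_pos n, κ_ge n]
    have h4 := div_sum (l := τ n) hv (by linarith) (fun m => by
      constructor
      · have := τ_ne n (tz m)
        rw [tz_cast] at this
        exact sub_ne_zero.2 this
      · have := τ_ne n (tz m + 1)
        push_cast at this
        rw [tz_cast] at this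
        intro h5
        exact this (by linarith)) hP (hg.2 n)
    rw [add_zero, zero_div] at h4
    exact h4
  · have hi := hw0 (2 * i)
    have hne : w (2 * i) ≠ v := by
      rw [hvdef]
      intro h3
      have h4 := hm.injective h3
      omega
    apply inner_zero h0 h1 h2
    · intro k hk
      apply hw1 (2 * i) (-k)
      push_cast
      linarith
    have hQ := (term_hasSum hg hi).neg
    rw [hz, neg_zero] at hQ
    have h4 := div_sum (l := -w (2 * i)) (s := s) (z := z) (R := 0) hv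
      (by intro h5; apply hne; linarith) (fun m => by
      have := t_pos m
      constructor
      · linarith
      · linarith) hP (by
        refine hasSum_congr' hQ (fun n => ?_)
        unfold term
        have e1 : -w (2 * i) - t n = -(w (2 * i) + t n) := by ring
        have e2 : -w (2 * i) - t n - 1 = -(w (2 * i) + t n + 1) := by ring
        rw [e2, e1, div_neg, div_neg]
        ring)
    rw [add_zero, zero_div] at h4
    exact h4

/-- linear independence -/
lemma lin_indep {s w : ℕ → ℝ} (hs : ∀ n, 1 ≤ n → s n ≠ 0) (hm : StrictMono w)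
    (hw0 : ∀ j, 0 < w j) {F : ℕ → H}
    (hF : ∀ j n, a1 (F j) n = ((A1 s n / (t n + 1 + w (2 * j + 1)) : ℝ) : ℂ)) :
    LinearIndependent ℂ F := by
  classical
  rw [linearIndependent_iff']
  intro S g hS j hj
  -- the scalar equations
  have h1 : ∀ n, 1 ≤ n → ∑ i ∈ S, g i / ((t n + 1 + w (2 * i + 1) : ℝ) : ℂ) = 0 := by
    intro n hn
    have h2 : a1 (∑ i ∈ S, g i • F i) n = 0 := by
      rw [hS]
      unfold a1
      rw [inner_zero_right, neg_zero]
    have h3 : a1 (∑ i ∈ S, g i • F i) n = ∑ i ∈ S, g i * a1 (F i) n := by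
      unfold a1
      rw [inner_sum, ← Finset.sum_neg_distrib]
      refine Finset.sum_congr rfl (fun i _ => ?_)
      rw [inner_smul_right]
      ring
    rw [h3] at h2
    have h4 : ((A1 s n : ℝ) : ℂ) ≠ 0 := by
      have h5 : A1 s n ≠ 0 := by
        unfold A1
        have := κ_ge n
        exact neg_ne_zero.2 (mul_ne_zero (by linarith) (hs n hn))
      exact_mod_cast h5
    have h5 : ((A1 s n : ℝ) : ℂ) * ∑ i ∈ S, g i / ((t n + 1 + w (2 * i + 1) : ℝ) : ℂ) = 0 := by
      rw [← h2, Finset.mul_sum]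
      refine Finset.sum_congr rfl (fun i _ => ?_)
      rw [hF, Complex.ofReal_div]
      ring
    rcases mul_eq_zero.1 h5 with h6 | h6
    · exact absurd h6 h4
    · exact h6
  -- the polynomial
  let Q : Polynomial ℂ := ∑ i ∈ S, Polynomial.C (g i) *
    ∏ k ∈ S.erase i, (Polynomial.X + Polynomial.C ((w (2 * k + 1) : ℝ) : ℂ))
  have hQe : ∀ a : ℂ, Q.eval a = ∑ i ∈ S, g i * ∏ k ∈ S.erase i, (a + ((w (2 * k + 1) : ℝ) : ℂ)) := by
    intro a
    simp only [Q, Polynomial.eval_finsetSum, Polynomial.eval_mul, Polynomial.eval_C,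
      Polynomial.eval_prod, Polynomial.eval_add, Polynomial.eval_X]
  have hQ : Q = 0 := by
    apply Polynomial.eq_zero_of_infinite_isRoot
    have hinj : Function.Injective (fun n : ℕ => ((t (n + 1) + 1 : ℝ) : ℂ)) := by
      intro m n hmn
      have h2 : t (m + 1) + 1 = t (n + 1) + 1 := Complex.ofReal_injective hmn
      have h3 : t (m + 1) = t (n + 1) := by linarith
      rcases lt_trichotomy m n with h4 | h4 | h4
      · exact absurd h3 (t_lt (by omega)).ne
      · exact h4
      · exact absurd h3 (t_lt (by omega)).ne'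
    refine (Set.infinite_range_of_injective hinj).mono ?_
    rintro _ ⟨n, rfl⟩
    simp only [Set.mem_ofPred_eq, Polynomial.IsRoot]
    rw [hQe]
    have h2 := h1 (n + 1) (by omega)
    have hne : ∀ i, ((t (n + 1) + 1 + w (2 * i + 1) : ℝ) : ℂ) ≠ 0 := by
      intro i
      have h3 : t (n + 1) + 1 + w (2 * i + 1) ≠ 0 := by
        have := t_pos (n + 1)
        have := hw0 (2 * i + 1)
        linarith
      exact_mod_cast h3
    have h3 : ∀ i ∈ S, g i * ∏ k ∈ S.erase i, (((t (n + 1) + 1 : ℝ) : ℂ) +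
        ((w (2 * k + 1) : ℝ) : ℂ)) = (∏ k ∈ S, ((t (n + 1) + 1 + w (2 * k + 1) : ℝ) : ℂ)) *
        (g i / ((t (n + 1) + 1 + w (2 * i + 1) : ℝ) : ℂ)) := by
      intro i hi
      rw [← Finset.mul_prod_erase S _ hi]
      have h4 := hne i
      have h5 : ∀ k, ((t (n + 1) + 1 : ℝ) : ℂ) + ((w (2 * k + 1) : ℝ) : ℂ) =
          ((t (n + 1) + 1 + w (2 * k + 1) : ℝ) : ℂ) := by
        intro k
        push_cast
        ring
      simp only [h5]
      field_simp
    rw [Finset.sum_congr rfl h3, ← Finset.mul_sum, h2, mul_zero]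
  have h2 := hQe (-((w (2 * j + 1) : ℝ) : ℂ))
  rw [hQ, Polynomial.eval_zero, Finset.sum_eq_single j] at h2
  · rcases mul_eq_zero.1 h2.symm with h3 | h3
    · exact h3
    · exfalso
      rw [Finset.prod_eq_zero_iff] at h3
      obtain ⟨k, hk, hk2⟩ := h3
      have h4 : (w (2 * k + 1) : ℂ) = ((w (2 * j + 1) : ℝ) : ℂ) := by
        linear_combination hk2
      have h5 : w (2 * k + 1) = w (2 * j + 1) := by exact_mod_cast h4
      have h6 := hm.injective h5
      exact (Finset.ne_of_mem_erase hk) (by omega)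
  · intro i hi hij
    rw [Finset.prod_eq_zero (Finset.mem_erase.2 ⟨Ne.symm hij, hj⟩) (by ring), mul_zero]
  · intro h
    exact absurd hj h

/-- the main theorem -/
theorem main : ∃ Λ : Set ℂ, (∀ l ∈ Λ, l.im = 0) ∧ InfiniteDefect Λ ∧
    (∀ M : Set ℂ, Disjoint Λ M → ¬ IsStrongMBasis (fun l : ↥(Λ ∪ M) => e (l : ℂ))) ∧
    (∀ (ι : Type) (x : ι → H), (∀ l ∈ Λ, e l ∈ Set.range x) → ¬ IsStrongMBasis x) := by
  obtain ⟨s, z, w, hg, hs, hm, hw, hw0, hw1, hz⟩ := exists_f1
  have hmain : ∀ (ι : Type) (x : ι → H), (∀ l ∈ (fun r : ℝ => (r : ℂ)) '' SL w,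
      e l ∈ Set.range x) → ¬ IsStrongMBasis x := by
    intro ι x hx hB
    exact not_basis hm hw hw0 hw1 hB (fun l hl => hx _ ⟨l, hl, rfl⟩)
  refine ⟨(fun r : ℝ => (r : ℂ)) '' SL w, ?_, ?_, ?_, hmain⟩
  · rintro _ ⟨r, -, rfl⟩
    simp
  · intro hfin
    choose F hF1 hF2 using exists_F hg hm hw0 hw1 hz
    have hli := lin_indep hs hm hw0 hF2
    have hmem : ∀ j, F j ∈ (closedSpan (e '' ((fun r : ℝ => (r : ℂ)) '' SL w)))ᗮ := by
      intro j
      rw [Submodule.mem_orthogonal]
      intro v hv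
      rw [← inner_conj_symm, mem_closedSpan_inner (x0 := F j) _ hv, map_zero]
      rintro _ ⟨_, ⟨r, hr, rfl⟩, rfl⟩
      rw [← inner_conj_symm, hF1 j r hr, map_zero]
    have hli2 : LinearIndependent ℂ
        (fun j => (⟨F j, hmem j⟩ : (closedSpan (e '' ((fun r : ℝ => (r : ℂ)) '' SL w)))ᗮ)) := by
      apply LinearIndependent.of_comp (Submodule.subtype _)
      exact hli
    have h1 := hli2.finite
    exact not_finite ℕ
  · intro M hM hB
    refine hmain _ _ ?_ hB
    intro l hl
    exact ⟨⟨l, Or.inl hl⟩, rfl⟩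

end Pool.Agent.H1.FB
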