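import Mathlib

set_option autoImplicit false

/-!
# Infinite linear systems with small coefficients
-/

namespace Pool.Agent.H1.FB

open BoundedContinuousFunction

/-- An infinite linear system `z = G + M z` whose matrix is small in a weighted supremum norm has a
solution bounded by the weights. -/
theorem exists_sol {G w : ℕ → ℝ} {M : ℕ → ℕ → ℝ} (hw : ∀ n, 0 < w n)
    (hG : ∀ n, |G n| ≤ w n / 2) (hs : ∀ n, Summable (fun m => |M n m| * w m))
    (hM : ∀ n, ∑' m, |M n m| * w m ≤ w n / 2) :
    ∃ z : ℕ → ℝ, (∀ n, |z n| ≤ w n) ∧ ∀ n, Summable (fun m => M n m * z m) ∧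
      z n = G n + ∑' m, M n m * z m := by
  -- bounded sequences
  let X := ℕ →ᵇ ℝ
  have hsum : ∀ (f : X) (n : ℕ), Summable (fun m => M n m * (w m * f m)) := by
    intro f n
    have h1 : Summable (fun m => |M n m| * w m * ‖f‖) := (hs n).mul_right _
    refine Summable.of_norm_bounded h1 (fun m => ?_)
    rw [Real.norm_eq_abs, abs_mul, abs_mul, abs_of_pos (hw m), mul_assoc]
    have h2 : |f m| ≤ ‖f‖ := by simpa using f.norm_coe_le_norm m
    exact mul_le_mul_of_nonneg_left (mul_le_mul_of_nonneg_left h2 (hw m).le) (abs_nonneg _)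
  have hbd : ∀ (f : X) (n : ℕ), |∑' m, M n m * (w m * f m)| ≤ w n / 2 * ‖f‖ := by
    intro f n
    have h1 : Summable (fun m => |M n m| * w m * ‖f‖) := (hs n).mul_right _
    have h3 : ‖∑' m, M n m * (w m * f m)‖ ≤ ∑' m, |M n m| * w m * ‖f‖ := by
      refine tsum_of_norm_bounded h1.hasSum (fun m => ?_)
      rw [Real.norm_eq_abs, abs_mul, abs_mul, abs_of_pos (hw m), mul_assoc]
      have h2 : |f m| ≤ ‖f‖ := by simpa using f.norm_coe_le_norm m
      exact mul_le_mul_of_nonneg_left (mul_le_mul_of_nonneg_left h2 (hw m).le) (abs_nonneg _)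
    rw [tsum_mul_right] at h3
    rw [Real.norm_eq_abs] at h3
    exact h3.trans (mul_le_mul_of_nonneg_right (hM n) (norm_nonneg _))
  have hT : ∀ f : X, ∀ n, ‖(G n + ∑' m, M n m * (w m * f m)) / w n‖ ≤ 1 / 2 + 1 / 2 * ‖f‖ := by
    intro f n
    rw [Real.norm_eq_abs, abs_div, abs_of_pos (hw n), div_le_iff₀ (hw n)]
    have h1 := abs_add_le (G n) (∑' m, M n m * (w m * f m))
    have h2 := hG n
    have h3 := hbd f n
    linarith
  let T : X → X := fun f => BoundedContinuousFunction.ofNormedAddCommGroup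
    (fun n => (G n + ∑' m, M n m * (w m * f m)) / w n) continuous_of_discreteTopology
    (1 / 2 + 1 / 2 * ‖f‖) (hT f)
  have hTa : ∀ f n, T f n = (G n + ∑' m, M n m * (w m * f m)) / w n := fun f n => rfl
  have hcon : ContractingWith (1 / 2) T := by
    refine ⟨by norm_num, LipschitzWith.of_dist_le_mul (fun f g => ?_)⟩
    rw [BoundedContinuousFunction.dist_le (by positivity)]
    intro n
    rw [hTa, hTa, Real.dist_eq]
    have h1 : (G n + ∑' m, M n m * (w m * f m)) / w n - (G n + ∑' m, M n m * (w m * g m)) / w n =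
        (∑' m, M n m * (w m * (f - g) m)) / w n := by
      rw [← sub_div]
      congr 1
      rw [add_sub_add_left_eq_sub, ← (hsum f n).tsum_sub (hsum g n)]
      congr 1
      ext m
      show M n m * (w m * f m) - M n m * (w m * g m) = M n m * (w m * (f m - g m))
      ring
    rw [h1, abs_div, abs_of_pos (hw n), div_le_iff₀ (hw n)]
    have h2 := hbd (f - g) n
    have h3 : ‖f - g‖ = dist f g := (dist_eq_norm f g).symm
    rw [h3] at h2
    have h4 : (((1 / 2 : NNReal) : NNReal) : ℝ) = 1 / 2 := by norm_num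
    rw [h4]
    linarith
  let f := hcon.fixedPoint T
  have hf : T f = f := hcon.fixedPoint_isFixedPt
  have hfn : ‖f‖ ≤ 1 := by
    have h1 : ‖T f‖ ≤ 1 / 2 + 1 / 2 * ‖f‖ :=
      BoundedContinuousFunction.norm_ofNormedAddCommGroup_le _ (by positivity) (hT f)
    rw [hf] at h1
    linarith
  refine ⟨fun n => w n * f n, fun n => ?_, fun n => ⟨hsum f n, ?_⟩⟩
  · rw [abs_mul, abs_of_pos (hw n)]
    have h2 : |f n| ≤ 1 := by
      have := f.norm_coe_le_norm n
      rw [Real.norm_eq_abs] at this
      linarith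
    nlinarith [hw n]
  · have h1 : T f n = f n := by rw [hf]
    rw [hTa] at h1
    have h2 := (hw n).ne'
    show w n * f n = _
    rw [← h1]
    field_simp

end Pool.Agent.H1.FB
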