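import Pool.Agent.H1.FB.Defs

set_option autoImplicit false

/-!
# The orthonormal basis of exponentials in `L²(-π, π)`
-/

namespace Pool.Agent.H1.FB

open MeasureTheory Filter Topology
open scoped ComplexConjugate

/-- the element of `L²(-π, π)` -/
noncomputable def e0 (l : ℂ) : H0 := (memLp_exp l).toLp (expFun l)

lemma inner_H (f g : H0) : inner ℂ (show H from f) (show H from g) = inner ℂ f g := rfl

lemma inner_e (l : ℂ) (f : H0) :
    inner ℂ (e0 l) f = ∫ x in Set.Ioo (-Real.pi) Real.pi, conj (expFun l x) * f x := by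
  rw [L2.inner_def]
  apply integral_congr_ae
  filter_upwards [(memLp_exp l).coeFn_toLp] with x hx
  unfold e0
  rw [hx, RCLike.inner_apply]
  ring

lemma inner_ee (l m : ℝ) : inner ℂ (e l) (e m) =
    ∫ x in (-Real.pi)..Real.pi, Complex.exp ((Complex.I * (m - l)) * x) := by
  have h0 : inner ℂ (e l) (e m) = inner ℂ (e0 l) (e0 m) := rfl
  rw [h0, inner_e, intervalIntegral.integral_of_le (by linarith [Real.pi_pos]),
    ← integral_Ioc_eq_integral_Ioo]
  rw [← restrict_Ioo_eq_restrict_Ioc]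
  apply integral_congr_ae
  filter_upwards [(memLp_exp (m : ℂ)).coeFn_toLp] with x hx
  unfold e0
  rw [hx]
  unfold expFun
  rw [← Complex.exp_conj, ← Complex.exp_add]
  congr 1
  simp
  ring

lemma inner_ne {l m : ℝ} (h : l ≠ m) :
    inner ℂ (e l) (e m) = ((2 * Real.sin (Real.pi * (m - l)) / (m - l) : ℝ) : ℂ) := by
  have h1 : (m : ℂ) - l ≠ 0 := by
    rw [sub_ne_zero]
    intro h2
    exact h (by exact_mod_cast h2.symm)
  rw [inner_ee, integral_exp_mul_complex (mul_ne_zero Complex.I_ne_zero h1)]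
  have h2 : Complex.exp (Complex.I * (m - l) * (Real.pi : ℝ)) =
      Complex.cos ((Real.pi * (m - l) : ℝ)) + Complex.sin ((Real.pi * (m - l) : ℝ)) * Complex.I := by
    rw [← Complex.exp_mul_I]
    congr 1
    push_cast
    ring
  have h3 : Complex.exp (Complex.I * (m - l) * ((-Real.pi : ℝ) : ℂ)) =
      Complex.cos ((Real.pi * (m - l) : ℝ)) - Complex.sin ((Real.pi * (m - l) : ℝ)) * Complex.I := by
    have h4 : Complex.I * ((m : ℂ) - l) * ((-Real.pi : ℝ) : ℂ) =
        (-((Real.pi * (m - l) : ℝ) : ℂ)) * Complex.I := by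
      push_cast
      ring
    rw [h4, Complex.exp_mul_I, Complex.cos_neg, Complex.sin_neg]
    ring
  rw [h2, h3]
  rw [div_eq_iff (mul_ne_zero Complex.I_ne_zero h1)]
  push_cast
  field_simp
  ring

lemma inner_eq (l : ℝ) : inner ℂ (e l) (e l) = ((2 * Real.pi : ℝ) : ℂ) := by
  rw [inner_ee]
  simp only [sub_self, mul_zero, zero_mul, Complex.exp_zero]
  rw [intervalIntegral.integral_const]
  push_cast
  simp
  ring

/-- the normalising factor -/
noncomputable def c0 : ℝ := (Real.sqrt (2 * Real.pi))⁻¹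

lemma c0_pos : 0 < c0 := by
  unfold c0
  have := Real.pi_pos
  positivity

lemma c0_sq : c0 * c0 * (2 * Real.pi) = 1 := by
  unfold c0
  have h := Real.pi_pos
  have h1 : Real.sqrt (2 * Real.pi) * Real.sqrt (2 * Real.pi) = 2 * Real.pi :=
    Real.mul_self_sqrt (by positivity)
  have h2 : Real.sqrt (2 * Real.pi) ≠ 0 := by positivity
  field_simp
  nlinarith

lemma sin_int (n : ℤ) : Real.sin (Real.pi * n) = 0 := by
  rw [mul_comm]
  exact Real.sin_int_mul_pi n

/-- the normalised exponentials are orthonormal -/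
lemma orth : Orthonormal ℂ (fun k : ℤ => (c0 : ℂ) • e ((k : ℝ) : ℂ)) := by
  rw [orthonormal_iff_ite]
  intro j k
  rw [inner_smul_left, inner_smul_right]
  split_ifs with h
  · subst h
    rw [inner_eq]
    have := c0_sq
    rw [Complex.conj_ofReal, ← Complex.ofReal_mul, ← Complex.ofReal_mul, ← mul_assoc, this]
    simp
  · have h1 : ((j : ℝ)) ≠ ((k : ℝ)) := by exact_mod_cast h
    rw [inner_ne h1]
    have h2 : Real.sin (Real.pi * ((k : ℝ) - j)) = 0 := by
      have := sin_int (k - j)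
      push_cast at this
      exact this
    rw [h2]
    simp

lemma complete0 {f : H0} (hf : ∀ k : ℤ, inner ℂ (e0 ((k : ℝ) : ℂ)) f = 0) : f = 0 := by
  have hab : -Real.pi < Real.pi := by linarith [Real.pi_pos]
  have hL : MemLp (fun x => (f : ℝ → ℂ) x) 2 (volume.restrict (Set.Ioc (-Real.pi) Real.pi)) := by
    rw [← restrict_Ioo_eq_restrict_Ioc]
    exact Lp.memLp f
  have h1 := hasSum_sq_fourierCoeffOn hab hL
  have h2 : ∀ i : ℤ, fourierCoeffOn hab (fun x => (f : ℝ → ℂ) x) i = 0 := by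
    intro i
    rw [fourierCoeffOn_eq_integral]
    have h3 : ∫ x in (-Real.pi)..Real.pi, fourier (-i) (x : AddCircle (Real.pi - -Real.pi)) •
        (f : ℝ → ℂ) x = inner ℂ (e0 ((i : ℝ) : ℂ)) f := by
      rw [inner_e, intervalIntegral.integral_of_le hab.le, ← integral_Ioc_eq_integral_Ioo]
      refine integral_congr_ae (Filter.Eventually.of_forall (fun x => ?_))
      simp only [smul_eq_mul]
      congr 1
      rw [fourier_coe_apply]
      unfold expFun
      rw [← Complex.exp_conj]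
      congr 1
      have hpi : (Real.pi : ℂ) ≠ 0 := by exact_mod_cast Real.pi_pos.ne'
      simp only [map_mul, Complex.conj_I, Complex.conj_ofReal]
      push_cast
      field_simp
      ring
    rw [h3, hf i, smul_zero]
  simp only [h2, norm_zero] at h1
  have h3 : (0 : ℝ) = (Real.pi - -Real.pi)⁻¹ • ∫ x in (-Real.pi)..Real.pi, ‖(f : ℝ → ℂ) x‖ ^ 2 := by
    refine HasSum.unique ?_ h1
    simpa using (hasSum_zero (α := ℝ) (β := ℤ))
  have h4 : ∫ x in (-Real.pi)..Real.pi, ‖(f : ℝ → ℂ) x‖ ^ 2 = 0 := by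
    have h5 : (Real.pi - -Real.pi)⁻¹ ≠ 0 := by
      have := Real.pi_pos
      apply inv_ne_zero
      linarith
    rw [smul_eq_mul] at h3
    rcases mul_eq_zero.1 h3.symm with h6 | h6
    · exact absurd h6 h5
    · exact h6
  have h5 : inner ℂ f f = 0 := by
    rw [L2.inner_def]
    have h6 : ∀ x, inner ℂ ((f : ℝ → ℂ) x) ((f : ℝ → ℂ) x) = ((‖(f : ℝ → ℂ) x‖ ^ 2 : ℝ) : ℂ) := by
      intro x
      rw [inner_self_eq_norm_sq_to_K]
      simp
    simp only [h6]
    rw [integral_complex_ofReal]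
    rw [intervalIntegral.integral_of_le hab.le, ← restrict_Ioo_eq_restrict_Ioc] at h4
    rw [h4]
    simp
  exact inner_self_eq_zero.1 h5

lemma complete {f : H} (hf : ∀ k : ℤ, inner ℂ (e ((k : ℝ) : ℂ)) f = 0) : f = 0 :=
  complete0 (f := f) hf

/-- the orthonormal basis -/
theorem exists_basis : ∃ b : HilbertBasis ℤ ℂ H, ∀ k : ℤ, b k = (c0 : ℂ) • e ((k : ℝ) : ℂ) := by
  refine ⟨HilbertBasis.mkOfOrthogonalEqBot orth ?_, fun k => by
    rw [HilbertBasis.coe_mkOfOrthogonalEqBot]⟩
  rw [Submodule.eq_bot_iff]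
  intro f hf
  apply complete
  intro k
  rw [Submodule.mem_orthogonal] at hf
  have h1 := hf _ (Submodule.subset_span ⟨k, rfl⟩)
  rw [inner_smul_left] at h1
  rcases mul_eq_zero.1 h1 with h2 | h2
  · exfalso
    rw [Complex.conj_ofReal] at h2
    exact c0_pos.ne' (by exact_mod_cast h2)
  · exact h2

/-- the basis -/
noncomputable def b : HilbertBasis ℤ ℂ H := exists_basis.choose

lemma b_eq (k : ℤ) : b k = (c0 : ℂ) • e ((k : ℝ) : ℂ) := exists_basis.choose_spec k

/-- `(-1) ^ k` -/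
noncomputable def sg (k : ℤ) : ℝ := Real.cos (Real.pi * k)

/-- the factor of the kernel -/
noncomputable def cf (l : ℝ) : ℝ := c0 * (2 * Real.sin (Real.pi * l))

lemma cf_ne {l : ℝ} (h : ∀ k : ℤ, l ≠ k) : cf l ≠ 0 := by
  unfold cf
  refine mul_ne_zero c0_pos.ne' (mul_ne_zero two_ne_zero ?_)
  intro h1
  rw [Real.sin_eq_zero_iff] at h1
  obtain ⟨n, hn⟩ := h1
  apply h n
  have := Real.pi_pos
  have h2 : Real.pi * (l - n) = 0 := by linarith
  rcases mul_eq_zero.1 h2 with h3 | h3
  · linarith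
  · linarith

/-- the coefficients of `e l` for a real non-integer `l` -/
lemma inner_eb {l : ℝ} (h : ∀ k : ℤ, l ≠ k) (k : ℤ) :
    inner ℂ (e l) (b k) = ((cf l * (sg k / (l - k)) : ℝ) : ℂ) := by
  rw [b_eq, inner_smul_right, inner_ne (h k), ← Complex.ofReal_mul]
  congr 1
  have h1 : l - k ≠ 0 := sub_ne_zero.2 (h k)
  have h2 : (k : ℝ) - l ≠ 0 := fun h3 => h1 (by linarith)
  have h3 : Real.sin (Real.pi * ((k : ℝ) - l)) = -(Real.sin (Real.pi * l) * sg k) := by
    rw [mul_sub, Real.sin_sub, sin_int]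
    unfold sg
    ring
  rw [h3]
  unfold cf
  field_simp
  ring

lemma sg_even {k : ℤ} (h : Even k) : sg k = 1 := by
  obtain ⟨m, rfl⟩ := h
  unfold sg
  push_cast
  have : Real.pi * ((m : ℝ) + m) = (m : ℝ) * (2 * Real.pi) := by ring
  rw [this]
  exact Real.cos_int_mul_two_pi m

lemma sg_succ (k : ℤ) : sg (k + 1) = -sg k := by
  unfold sg
  push_cast
  rw [mul_add, mul_one, Real.cos_add_pi]

end Pool.Agent.H1.FB
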