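import Pool.Agent.H1.FB.Vec

set_option autoImplicit false

/-!
# The space of vectors orthogonal to the frozen part of the system, and the functional on it
-/

namespace Pool.Agent.H1.FB

open MeasureTheory Filter Topology

lemma τ_ne (n : ℕ) (k : ℤ) : τ n ≠ k := by
  intro h
  have h1 : τ n = ((tz n : ℤ) : ℝ) + 100 ^ (2 ^ n) + 1 / 2 := by
    unfold τ κ u
    rw [tz_cast]
    ring
  rw [h1] at h
  have h2 : (2 * (tz n + 100 ^ (2 ^ n)) + 1 : ℤ) = 2 * k := by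
    have h3 : ((2 * (tz n + 100 ^ (2 ^ n)) + 1 : ℤ) : ℝ) = ((2 * k : ℤ) : ℝ) := by
      push_cast
      linarith
    exact_mod_cast h3
  omega

lemma e_inj {l m : ℝ} (h : e (l : ℂ) = e (m : ℂ)) : l = m := by
  by_contra hne
  have h1 := inner_ne hne
  rw [← h, inner_eq] at h1
  have h2 : 2 * Real.pi = 2 * Real.sin (Real.pi * (m - l)) / (m - l) := by exact_mod_cast h1
  have h3 : m - l ≠ 0 := fun h4 => hne (by linarith)
  rw [eq_div_iff h3] at h2
  have hpi := Real.pi_pos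
  rcases lt_or_gt_of_ne h3 with h4 | h4
  · have h5 : 0 < -(Real.pi * (m - l)) := by nlinarith
    have h6 := Real.sin_lt h5
    rw [Real.sin_neg] at h6
    linarith
  · have h5 : 0 < Real.pi * (m - l) := by positivity
    have h6 := Real.sin_lt h5
    linarith

/-- a vector with real coefficients is orthogonal to `e l` if the series vanishes -/
lemma inner_zero {f : H} {α β : ℕ → ℝ} (h0 : ∀ n, a0 f n = (α n : ℂ))
    (h1 : ∀ n, a1 f n = (β n : ℂ)) (hf : ∀ k, k ∉ P → inner ℂ (b k) f = 0) {l : ℝ}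
    (hl : ∀ k : ℤ, l ≠ k) (hs : HasSum (fun n => α n / (l - t n) + β n / (l - t n - 1)) 0) :
    inner ℂ (e (l : ℂ)) f = 0 := by
  have h2 := pairs hf hl
  have h3 := Complex.hasSum_ofReal.2 hs
  have h4 : HasSum (fun n => a0 f n / ((l - t n : ℝ) : ℂ) + a1 f n / ((l - t n - 1 : ℝ) : ℂ))
      (((0 : ℝ) : ℂ)) := by
    refine hasSum_congr' h3 (fun n => ?_)
    rw [h0, h1]
    push_cast
    ring
  have h5 := h2.unique h4
  rw [Complex.ofReal_zero] at h5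
  rcases div_eq_zero_iff.1 h5 with h6 | h6
  · exact h6
  · exact absurd (by exact_mod_cast h6) (cf_ne hl)

lemma inner_int_zero {f : H} {k : ℤ} (h : inner ℂ (b k) f = 0) :
    inner ℂ (e ((k : ℝ) : ℂ)) f = 0 := by
  rw [b_eq, inner_smul_left] at h
  rcases mul_eq_zero.1 h with h2 | h2
  · exfalso
    rw [Complex.conj_ofReal] at h2
    exact c0_pos.ne' (by exact_mod_cast h2)
  · exact h2

/-- the frozen part -/
def SA : Set ℝ := {l | (∃ k : ℤ, l = k ∧ k ∉ P) ∨ ∃ n, l = τ n}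

/-- the vectors orthogonal to the frozen part -/
noncomputable def V : Submodule ℂ H := (Submodule.span ℂ ((fun l : ℝ => e (l : ℂ)) '' SA))ᗮ

lemma mem_V {f : H} : f ∈ V ↔ ∀ l ∈ SA, inner ℂ (e ((l : ℝ) : ℂ)) f = 0 := by
  unfold V
  rw [Submodule.mem_orthogonal]
  constructor
  · intro h l hl
    exact h _ (Submodule.subset_span ⟨l, hl, rfl⟩)
  · intro h g hg
    induction hg using Submodule.span_induction with
    | mem x hx =>
      obtain ⟨l, hl, rfl⟩ := hx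
      exact h l hl
    | zero => exact inner_zero_left _
    | add x y _ _ hx hy => rw [inner_add_left, hx, hy, add_zero]
    | smul a x _ hx => rw [inner_smul_left, hx, mul_zero]

lemma V_b {f : H} (hf : f ∈ V) : ∀ k, k ∉ P → inner ℂ (b k) f = 0 := by
  intro k hk
  rw [b_eq, inner_smul_left, mem_V.1 hf (k : ℝ) (Or.inl ⟨k, rfl, hk⟩), mul_zero]

lemma V_τ {f : H} (hf : f ∈ V) (n : ℕ) :
    HasSum (fun m => a0 f m / ((τ n - t m : ℝ) : ℂ) + a1 f m / ((τ n - t m - 1 : ℝ) : ℂ)) 0 := by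
  have h1 := pairs (V_b hf) (τ_ne n)
  rw [mem_V.1 hf (τ n) (Or.inr ⟨n, rfl⟩), zero_div] at h1
  exact h1

lemma a0_le (f : H) (n : ℕ) : ‖a0 f n‖ ≤ ‖f‖ := by
  unfold a0
  have h1 := norm_inner_le_norm (𝕜 := ℂ) (b (tz n)) f
  rwa [b.orthonormal.1, one_mul] at h1

lemma a1_le (f : H) (n : ℕ) : ‖a1 f n‖ ≤ ‖f‖ := by
  unfold a1
  rw [norm_neg]
  have h1 := norm_inner_le_norm (𝕜 := ℂ) (b (tz n + 1)) f
  rwa [b.orthonormal.1, one_mul] at h1

/-- membership from a good pair -/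
lemma good_mem {s z : ℕ → ℝ} (h : Good s z) : ∃ f ∈ V, (∀ n, a0 f n = (A0 s z n : ℂ)) ∧
    ∀ n, a1 f n = (A1 s n : ℂ) := by
  obtain ⟨C, hC⟩ := h.1
  obtain ⟨f, h0, h1, h2⟩ := exists_vec (A0_bd hC) (A1_bd (fun n => (hC n).1))
  refine ⟨f, ?_, h0, h1⟩
  rw [mem_V]
  rintro l (⟨k, rfl, hk⟩ | ⟨n, rfl⟩)
  · exact inner_int_zero (h2 k hk)
  · exact inner_zero h0 h1 h2 (τ_ne n) (h.2 n)

/-- the functional as a limit of evaluations -/
lemma V_lim {f : H} (hf : f ∈ V) {w : ℕ → ℝ} (hw : Tendsto w atTop atTop) (hw0 : ∀ j, 0 < w j)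
    (hw1 : ∀ j (N : ℤ), w j ≠ N) :
    Tendsto (fun j => (-(w j / cf (-w j) : ℝ) : ℂ) * inner ℂ (e ((-w j : ℝ) : ℂ)) f) atTop
      (𝓝 (∑' n, (a0 f n + a1 f n))) := by
  have h1 := tendsto_fun (fun n => a1_le f n) (sum_bd (a0_le f) (a1_le f) (V_τ hf)) hw hw0
  refine h1.congr (fun j => ?_)
  have hne : ∀ k : ℤ, -w j ≠ k := by
    intro k hk
    apply hw1 j (-k)
    push_cast
    linarith
  have h2 := (pairs (V_b hf) hne).mul_left (-((w j : ℝ) : ℂ))
  have h3 : HasSum (fun n => ((w j : ℝ) : ℂ) * (a0 f n / ((w j + t n : ℝ) : ℂ) +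
      a1 f n / ((w j + t n + 1 : ℝ) : ℂ)))
      (-((w j : ℝ) : ℂ) * (inner ℂ (e ((-w j : ℝ) : ℂ)) f / ((cf (-w j) : ℝ) : ℂ))) := by
    refine hasSum_congr' h2 (fun n => ?_)
    have e1 : ((-w j - t n : ℝ) : ℂ) = -((w j + t n : ℝ) : ℂ) := by push_cast; ring
    have e2 : ((-w j - t n - 1 : ℝ) : ℂ) = -((w j + t n + 1 : ℝ) : ℂ) := by push_cast; ring
    rw [e1, e2, div_neg, div_neg]
    ring
  rw [h3.tsum_eq, Complex.ofReal_div]
  ring

/-- the functional is represented by a vector -/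
theorem exists_rep {w : ℕ → ℝ} (hw : Tendsto w atTop atTop) (hw0 : ∀ j, 0 < w j)
    (hw1 : ∀ j (N : ℤ), w j ≠ N) :
    ∃ x0 ∈ V, ∀ f ∈ V, inner ℂ x0 f = ∑' n, (a0 f n + a1 f n) := by
  have : CompleteSpace V := by unfold V; infer_instance
  let g : ℕ → V →L[ℂ] ℂ := fun j => (-(w j / cf (-w j) : ℝ) : ℂ) •
    ((innerSL ℂ (e ((-w j : ℝ) : ℂ))).comp V.subtypeL)
  have hg : ∀ j (f : V), g j f = (-(w j / cf (-w j) : ℝ) : ℂ) *
      inner ℂ (e ((-w j : ℝ) : ℂ)) (f : H) := by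
    intro j f
    simp [g]
  have hlim : Tendsto (fun j (f : V) => g j f) atTop
      (𝓝 (fun f : V => ∑' n, (a0 (f : H) n + a1 (f : H) n))) := by
    rw [tendsto_pi_nhds]
    intro f
    simp only [hg]
    exact V_lim f.2 hw hw0 hw1
  let Lc : V →L[ℂ] ℂ := continuousLinearMapOfTendsto g hlim
  have hLc : ∀ f : V, Lc f = ∑' n, (a0 (f : H) n + a1 (f : H) n) := fun f => rfl
  refine ⟨((InnerProductSpace.toDual ℂ V).symm Lc : V), Subtype.mem _, fun f hf => ?_⟩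
  have h1 := InnerProductSpace.toDual_symm_apply (𝕜 := ℂ) (E := V) (x := ⟨f, hf⟩) (y := Lc)
  rw [hLc] at h1
  rw [← h1]
  rfl

end Pool.Agent.H1.FB
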