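import Pool.Agent.H1.FB.Fix

set_option autoImplicit false

/-!
# The sequences

The poles are `t n, t n + 1` with `t n = 100 ^ (4 * 2 ^ n)`, and the additional points are
`τ n = t n + κ n`, `κ n = 100 ^ (2 ^ n) + 1 / 2`.
-/

namespace Pool.Agent.H1.FB

/-- `u n = 100 ^ (2 ^ n)` -/
noncomputable def u (n : ℕ) : ℝ := 100 ^ (2 ^ n)

/-- the poles are `t n` and `t n + 1` -/
noncomputable def t (n : ℕ) : ℝ := u n ^ 4

/-- the distance from `t n` to the additional point -/
noncomputable def κ (n : ℕ) : ℝ := u n + 1 / 2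

/-- the additional points -/
noncomputable def τ (n : ℕ) : ℝ := t n + κ n

/-- `p n = 1 / u n` -/
noncomputable def p (n : ℕ) : ℝ := (u n)⁻¹

lemma u_pow (n : ℕ) : (100 : ℝ) ^ (n + 1) ≤ u n := by
  unfold u
  apply pow_le_pow_right₀ (by norm_num)
  exact Nat.lt_two_pow_self

lemma u_ge (n : ℕ) : 100 ≤ u n := by
  have h1 := u_pow n
  have h2 : (100 : ℝ) ^ 1 ≤ 100 ^ (n + 1) := pow_le_pow_right₀ (by norm_num) (by omega)
  linarith

lemma u_pos (n : ℕ) : 0 < u n := by linarith [u_ge n]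

lemma u_sq {m n : ℕ} (h : m < n) : u m ^ 2 ≤ u n := by
  unfold u
  rw [← pow_mul]
  apply pow_le_pow_right₀ (by norm_num)
  calc 2 ^ m * 2 = 2 ^ (m + 1) := by ring
    _ ≤ 2 ^ n := Nat.pow_le_pow_right (by norm_num) h

lemma p_pos (n : ℕ) : 0 < p n := inv_pos.2 (u_pos n)

lemma p_le (n : ℕ) : p n ≤ 1 / 100 := by
  unfold p
  rw [one_div]
  exact inv_anti₀ (by norm_num) (u_ge n)

lemma p_sq {m n : ℕ} (h : m < n) : p n ≤ p m ^ 2 := by
  unfold p
  rw [inv_pow]
  exact inv_anti₀ (by have := u_pos m; positivity) (u_sq h)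

lemma pu (n : ℕ) : p n * u n = 1 := inv_mul_cancel₀ (u_pos n).ne'

lemma p_geom (n : ℕ) : p n ≤ (1 / 100) * (1 / 100) ^ n := by
  have h := inv_anti₀ (by positivity) (u_pow n)
  unfold p
  calc (u n)⁻¹ ≤ ((100 : ℝ) ^ (n + 1))⁻¹ := h
    _ = (1 / 100) * (1 / 100) ^ n := by rw [pow_succ, one_div, inv_pow]; field_simp

lemma summable_p : Summable p :=
  Summable.of_nonneg_of_le (fun n => (p_pos n).le) p_geom
    ((summable_geometric_of_lt_one (by norm_num) (by norm_num)).mul_left _)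

lemma tsum_p : ∑' n, p n ≤ 1 / 99 := by
  have h1 : Summable (fun n : ℕ => (1 / 100 : ℝ) * (1 / 100) ^ n) :=
    (summable_geometric_of_lt_one (by norm_num) (by norm_num)).mul_left _
  calc ∑' n, p n ≤ ∑' n : ℕ, (1 / 100 : ℝ) * (1 / 100) ^ n := summable_p.tsum_le_tsum p_geom h1
    _ = 1 / 99 := by
      rw [tsum_mul_left, tsum_geometric_of_lt_one (by norm_num) (by norm_num)]; norm_num

lemma t_pos (n : ℕ) : 0 < t n := by unfold t; have := u_pos n; positivity

lemma t_ge (n : ℕ) : 100000000 ≤ t n := by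
  unfold t
  have h := u_ge n
  calc (100000000 : ℝ) = 100 ^ 4 := by norm_num
    _ ≤ u n ^ 4 := by gcongr

lemma κ_ge (n : ℕ) : 100 ≤ κ n := by unfold κ; linarith [u_ge n]

lemma κ_le (n : ℕ) : κ n ≤ 101 / 100 * u n := by unfold κ; linarith [u_ge n]

/-- `1 / t = p ^ 4` -/
lemma t_inv (n : ℕ) : (t n)⁻¹ = p n ^ 4 := by unfold t p; rw [inv_pow]

/-- the distance from `τ n` to the pole `t m` is large -/
lemma D_large {n m : ℕ} (h : m ≠ n) :
    u n ^ 3 * u m ≤ 2 * |τ n - t m| ∧ u n ^ 3 * u m ≤ 2 * |τ n - t m - 1| ∧ κ m ≤ |τ n - t m| := by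
  have hn := u_ge n
  have hm := u_ge m
  rcases lt_or_gt_of_ne h with h | h
  · -- `m < n`
    have h1 := u_sq h
    have h2 : t m ≤ u n ^ 2 := by
      unfold t
      calc u m ^ 4 = (u m ^ 2) ^ 2 := by ring
        _ ≤ u n ^ 2 := by gcongr
    have h3 : u m ≤ u n := by nlinarith
    have h4 : u n ^ 3 * u m ≤ u n ^ 4 := by
      have : u n ^ 3 * u m ≤ u n ^ 3 * u n := by gcongr
      calc _ ≤ _ := this
        _ = _ := by ring
    have h5 : u n ^ 4 / 2 + 1 + u n ≤ τ n - t m := by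
      unfold τ κ
      have h6 : u n ^ 2 * 10000 ≤ u n ^ 4 := by
        have : (100 : ℝ) ^ 2 ≤ u n ^ 2 := by gcongr
        nlinarith
      have h7 : t n = u n ^ 4 := rfl
      nlinarith
    have h8 : 0 < u n ^ 4 := by positivity
    rw [abs_of_pos (by linarith), abs_of_pos (by linarith)]
    refine ⟨by linarith, by linarith, ?_⟩
    unfold κ
    nlinarith
  · -- `n < m`
    have h1 := u_sq h
    have h2 : t n ≤ u m ^ 2 := by
      unfold t
      calc u n ^ 4 = (u n ^ 2) ^ 2 := by ring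
        _ ≤ u m ^ 2 := by gcongr
    have h3 : u n ≤ u m := by nlinarith
    have h4 : u n ^ 3 * u m ≤ u m ^ 4 := by
      have : u n ^ 3 * u m ≤ u m ^ 3 * u m := by gcongr
      calc _ ≤ _ := this
        _ = _ := by ring
    have h5 : u m ^ 4 / 2 + 1 + u m ≤ -(τ n - t m) := by
      unfold τ κ
      have h6 : u m ^ 2 * 10000 ≤ u m ^ 4 := by
        have : (100 : ℝ) ^ 2 ≤ u m ^ 2 := by gcongr
        nlinarith
      have h7 : t m = u m ^ 4 := rfl
      nlinarith
    have h8 : 0 < u m ^ 4 := by positivity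
    rw [abs_of_neg (by linarith), abs_of_neg (by linarith)]
    refine ⟨by linarith, by linarith, ?_⟩
    unfold κ
    linarith

lemma D_inv {n m : ℕ} (h : m ≠ n) : |(τ n - t m)⁻¹| ≤ 2 * (p n ^ 3 * p m) ∧
    |(τ n - t m - 1)⁻¹| ≤ 2 * (p n ^ 3 * p m) ∧ τ n - t m ≠ 0 ∧ τ n - t m - 1 ≠ 0 := by
  obtain ⟨h1, h2, -⟩ := D_large h
  have hn := u_pos n
  have hm := u_pos m
  have h3 : 0 < u n ^ 3 * u m := by positivity
  have h4 : 2 * (p n ^ 3 * p m) = (u n ^ 3 * u m / 2)⁻¹ := by
    unfold p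
    field_simp
  rw [abs_inv, abs_inv, h4]
  refine ⟨inv_anti₀ (by positivity) (by linarith), inv_anti₀ (by positivity) (by linarith), ?_, ?_⟩
  · intro h5; rw [h5] at h1; simp at h1; linarith
  · intro h5; rw [h5] at h2; simp at h2; linarith

/-- the coefficient of `s m` in the equation at `τ n` -/
noncomputable def c (n m : ℕ) : ℝ := (τ n - t m - κ m) / ((τ n - t m) * (τ n - t m - 1))

lemma c_le {n m : ℕ} (h : m ≠ n) : |c n m| ≤ 4 * (p n ^ 3 * p m) := by
  obtain ⟨h1, h2, h3, h4⟩ := D_inv h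
  obtain ⟨-, -, h5⟩ := D_large h
  have h6 : |τ n - t m - κ m| ≤ 2 * |τ n - t m| := by
    have := abs_sub (τ n - t m) (κ m)
    have h7 : |κ m| = κ m := abs_of_pos (by linarith [κ_ge m])
    rw [h7] at this
    linarith
  have h8 : |τ n - t m| ≠ 0 := by simpa using h3
  unfold c
  rw [abs_div, abs_mul]
  have h9 : 0 < |τ n - t m| := abs_pos.2 h3
  have h10 : 0 < |τ n - t m - 1| := abs_pos.2 h4
  calc |τ n - t m - κ m| / (|τ n - t m| * |τ n - t m - 1|)
      ≤ 2 * |τ n - t m| / (|τ n - t m| * |τ n - t m - 1|) := by gcongr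
    _ = 2 * |(τ n - t m - 1)⁻¹| := by rw [abs_inv]; field_simp
    _ ≤ _ := by linarith

/-- the values at the poles -/
noncomputable def A0 (s z : ℕ → ℝ) (n : ℕ) : ℝ := κ n * s n - z n

/-- the values at the poles -/
noncomputable def A1 (s : ℕ → ℝ) (n : ℕ) : ℝ := -((κ n - 1) * s n)

lemma term_ne {n m : ℕ} (h : m ≠ n) (s z : ℕ → ℝ) :
    A0 s z m / (τ n - t m) + A1 s m / (τ n - t m - 1) = c n m * s m - z m / (τ n - t m) := by
  obtain ⟨-, -, h3, h4⟩ := D_inv h
  unfold A0 A1 c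
  field_simp
  ring

lemma term_eq (n : ℕ) (s z : ℕ → ℝ) :
    A0 s z n / (τ n - t n) + A1 s n / (τ n - t n - 1) = -z n / κ n := by
  have h1 : τ n - t n = κ n := by unfold τ; ring
  have h2 : κ n ≠ 0 := by linarith [κ_ge n]
  have h3 : κ n - 1 ≠ 0 := by linarith [κ_ge n]
  rw [h1]
  unfold A0 A1
  field_simp
  ring

/-- the pair `(s, z)` defines a function vanishing at all additional points -/
def Good (s z : ℕ → ℝ) : Prop :=
  (∃ C : ℝ, ∀ n, |s n| ≤ C * p n ^ 2 ∧ |z n| ≤ C * p n ^ 2) ∧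
    ∀ n, HasSum (fun m => A0 s z m / (τ n - t m) + A1 s m / (τ n - t m - 1)) 0

lemma Good.add {s z s' z' : ℕ → ℝ} (h : Good s z) (h' : Good s' z') (r : ℝ) :
    Good (fun n => s n + r * s' n) (fun n => z n + r * z' n) := by
  obtain ⟨⟨C, hC⟩, h1⟩ := h
  obtain ⟨⟨C', hC'⟩, h1'⟩ := h'
  refine ⟨⟨C + |r| * C', fun n => ⟨?_, ?_⟩⟩, fun n => ?_⟩
  · have h2 := abs_add_le (s n) (r * s' n)
    rw [abs_mul] at h2
    have h3 := mul_le_mul_of_nonneg_left (hC' n).1 (abs_nonneg r)
    nlinarith [(hC n).1]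
  · have h2 := abs_add_le (z n) (r * z' n)
    rw [abs_mul] at h2
    have h3 := mul_le_mul_of_nonneg_left (hC' n).2 (abs_nonneg r)
    nlinarith [(hC n).2]
  · have h2 := (h1 n).add ((h1' n).mul_left r)
    rw [mul_zero, add_zero] at h2
    convert h2 using 1
    ext m
    unfold A0 A1
    ring

/-- for every small `s` there is a small `z` with `(s, z)` good -/
theorem exists_z (s : ℕ → ℝ) (A : ℝ) (hA : 0 < A) (hs : ∀ n, |s n| ≤ A)
    (hs' : ∃ C : ℝ, ∀ n, |s n| ≤ C * p n ^ 2) :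
    ∃ z : ℕ → ℝ, (∀ n, |z n| ≤ A / 5 * p n ^ 2) ∧ Good s z := by
  have hp := p_pos
  have hsum4 : ∀ n, Summable (fun m => 4 * (p n ^ 3 * p m) * A) := fun n =>
    ((summable_p.mul_left (p n ^ 3)).mul_left 4).mul_right A
  -- the given part
  let g : ℕ → ℕ → ℝ := fun n m => if m = n then 0 else c n m * s m
  have hg : ∀ n m, ‖g n m‖ ≤ 4 * (p n ^ 3 * p m) * A := by
    intro n m
    simp only [g]
    split_ifs with h
    · rw [norm_zero]; have := hp n; have := hp m; positivity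
    · rw [Real.norm_eq_abs, abs_mul]
      exact mul_le_mul (c_le h) (hs m) (abs_nonneg _) (by have := hp n; have := hp m; positivity)
  have hgs : ∀ n, Summable (g n) := fun n => Summable.of_norm_bounded (hsum4 n) (hg n)
  let M : ℕ → ℕ → ℝ := fun n m => if m = n then 0 else -κ n / (τ n - t m)
  have hM : ∀ n m, |M n m| ≤ 2 * κ n * (p n ^ 3 * p m) := by
    intro n m
    have hk := κ_ge n
    simp only [M]
    split_ifs with h
    · rw [abs_zero]; have := hp n; have := hp m; positivity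
    · rw [div_eq_mul_inv, abs_mul, abs_neg, abs_of_pos (by linarith : (0:ℝ) < κ n)]
      nlinarith [(D_inv h).1]
  have hkp : ∀ n, κ n * p n ≤ 101 / 100 := by
    intro n
    have h1 := κ_le n
    have h2 := hp n
    have h3 := pu n
    nlinarith
  have hMw : ∀ n m, |M n m| * (A / 5 * p m ^ 2) ≤ A * p n ^ 2 * (1 / 100) * p m := by
    intro n m
    have h1 := hM n m
    have h2 := hkp n
    have h3 := hp n
    have h4 := hp m
    have h5 := p_le m
    calc |M n m| * (A / 5 * p m ^ 2) ≤ 2 * κ n * (p n ^ 3 * p m) * (A / 5 * p m ^ 2) := by gcongr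
      _ = (2 / 5) * (κ n * p n) * p m ^ 2 * (A * p n ^ 2 * p m) := by ring
      _ ≤ (2 / 5) * (101 / 100) * (1 / 100) ^ 2 * (A * p n ^ 2 * p m) := by gcongr
      _ ≤ (1 / 100) * (A * p n ^ 2 * p m) := by
        apply mul_le_mul_of_nonneg_right (by norm_num) (by positivity)
      _ = _ := by ring
  have hMs : ∀ n, Summable (fun m => |M n m| * (A / 5 * p m ^ 2)) := fun n =>
    Summable.of_nonneg_of_le (fun m => by have := hp m; positivity) (hMw n)
      (summable_p.mul_left _)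
  obtain ⟨z, hz, hz'⟩ := exists_sol (G := fun n => κ n * ∑' m, g n m)
    (w := fun n => A / 5 * p n ^ 2) (M := M)
    (fun n => by have := hp n; positivity)
    (fun n => by
      have h1 : ‖∑' m, g n m‖ ≤ ∑' m, 4 * (p n ^ 3 * p m) * A :=
        tsum_of_norm_bounded (hsum4 n).hasSum (hg n)
      rw [tsum_mul_right, tsum_mul_left, tsum_mul_left] at h1
      have h2 := tsum_p
      have h3 := hkp n
      have h4 := hp n
      have h5 := κ_ge n
      rw [abs_mul, abs_of_pos (by linarith : (0:ℝ) < κ n)]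
      rw [Real.norm_eq_abs] at h1
      calc κ n * |∑' m, g n m| ≤ κ n * (4 * (p n ^ 3 * ∑' m, p m) * A) := by gcongr
        _ = 4 * (κ n * p n) * (∑' m, p m) * (A * p n ^ 2) := by ring
        _ ≤ 4 * (101 / 100) * (1 / 99) * (A * p n ^ 2) := by
          have : 0 ≤ ∑' m, p m := tsum_nonneg (fun m => (hp m).le)
          gcongr
        _ ≤ (1 / 10) * (A * p n ^ 2) := by
          apply mul_le_mul_of_nonneg_right (by norm_num) (by positivity)
        _ = _ := by ring)
    hMs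
    (fun n => by
      have h1 := (hMs n).tsum_le_tsum (hMw n) (summable_p.mul_left _)
      rw [tsum_mul_left] at h1
      have h2 := tsum_p
      have h3 := hp n
      calc _ ≤ A * p n ^ 2 * (1 / 100) * ∑' m, p m := h1
        _ ≤ A * p n ^ 2 * (1 / 100) * (1 / 99) := by gcongr
        _ = (A * p n ^ 2) * ((1 / 100) * (1 / 99)) := by ring
        _ ≤ (A * p n ^ 2) * (1 / 10) := by
          apply mul_le_mul_of_nonneg_left (by norm_num) (by positivity)
        _ = _ := by ring)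
  refine ⟨z, hz, ?_, fun n => ?_⟩
  · obtain ⟨C, hC⟩ := hs'
    refine ⟨max C (A / 5), fun n => ⟨(hC n).trans ?_, (hz n).trans ?_⟩⟩
    · have := hp n
      gcongr
      exact le_max_left _ _
    · have := hp n
      gcongr
      exact le_max_right _ _
  · have hk : κ n ≠ 0 := by linarith [κ_ge n]
    have h1 : HasSum (fun m => if m = n then -z n / κ n else 0) (-z n / κ n) :=
      hasSum_ite_eq n _
    have h2 : HasSum (g n) (∑' m, g n m) := (hgs n).hasSum
    have h3 : HasSum (fun m => (κ n)⁻¹ * (M n m * z m)) ((κ n)⁻¹ * ∑' m, M n m * z m) :=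
      (hz' n).1.hasSum.mul_left _
    have h4 := (h1.add h2).add h3
    have h5 : -z n / κ n + ∑' m, g n m + (κ n)⁻¹ * ∑' m, M n m * z m = 0 := by
      have h6 := (hz' n).2
      field_simp
      linarith
    rw [h5] at h4
    convert h4 using 1
    ext m
    by_cases h : m = n
    · subst h
      rw [term_eq]
      simp [g, M]
    · rw [term_ne h]
      simp only [if_neg h, g, M]
      obtain ⟨-, -, h7, -⟩ := D_inv h
      field_simp
      ring

end Pool.Agent.H1.FB
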