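import Pool.Agent.H1.FB.Hilb
import Pool.Agent.H1.FB.Ex2

set_option autoImplicit false

/-!
# Vectors with coefficients supported on the poles
-/

namespace Pool.Agent.H1.FB

open MeasureTheory Filter Topology

/-- `t n` as an integer -/
def tz (n : ℕ) : ℤ := (100 ^ (2 ^ n)) ^ 4

lemma tz_cast (n : ℕ) : ((tz n : ℤ) : ℝ) = t n := by
  unfold tz t u
  push_cast
  ring

lemma tz_cast' (n : ℕ) : ((tz n : ℤ) : ℂ) = ((t n : ℝ) : ℂ) := by
  rw [← tz_cast]
  push_cast
  rfl

lemma tz_even (n : ℕ) : Even (tz n) := by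
  unfold tz
  have h1 : Even (100 : ℤ) := by decide
  have h2 : Even ((100 : ℤ) ^ (2 ^ n)) := h1.pow_of_ne_zero (by positivity)
  exact h2.pow_of_ne_zero (by norm_num)

lemma tz_inj : Function.Injective tz := by
  intro m n h
  have h1 : t m = t n := by rw [← tz_cast, ← tz_cast, h]
  rcases lt_trichotomy m n with h2 | h2 | h2
  · exact absurd h1 (t_lt h2).ne
  · exact h2
  · exact absurd h1 (t_lt h2).ne'

lemma tz_ne (m n : ℕ) : tz m ≠ tz n + 1 := by
  intro h
  have h1 := tz_even m
  rw [h] at h1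
  have h2 := (tz_even n).add_one
  exact (Int.not_even_iff_odd.2 h2) h1

/-- the poles -/
def P : Set ℤ := {k | ∃ n, k = tz n ∨ k = tz n + 1}

/-- the coefficients at the poles -/
noncomputable def a0 (f : H) (n : ℕ) : ℂ := inner ℂ (b (tz n)) f

/-- the coefficients at the poles -/
noncomputable def a1 (f : H) (n : ℕ) : ℂ := -inner ℂ (b (tz n + 1)) f

lemma hasSum_congr' {ι M : Type*} [AddCommMonoid M] [TopologicalSpace M] {f g : ι → M}
    {a : M} (h : HasSum f a) (hfg : ∀ i, g i = f i) : HasSum g a := by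
  have : g = f := funext hfg
  rw [this]
  exact h

/-- the inner product with `e l` as a series -/
lemma pairs {f : H} (hf : ∀ k, k ∉ P → inner ℂ (b k) f = 0) {l : ℝ} (hl : ∀ k : ℤ, l ≠ k) :
    HasSum (fun n => a0 f n / ((l - t n : ℝ) : ℂ) + a1 f n / ((l - t n - 1 : ℝ) : ℂ))
      (inner ℂ (e l) f / ((cf l : ℝ) : ℂ)) := by
  have h1 := b.hasSum_inner_mul_inner (e l) f
  let g : ℕ × Bool → ℤ := fun q => if q.2 = true then tz q.1 + 1 else tz q.1
  have hg : Function.Injective g := by
    rintro ⟨m, i⟩ ⟨n, j⟩ h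
    simp only [g] at h
    cases i <;> cases j <;> simp at h
    · rw [tz_inj h]
    · exact absurd h (tz_ne m n)
    · exact absurd h.symm (tz_ne n m)
    · rw [tz_inj h]
  have h2 : HasSum ((fun k => inner ℂ (e l) (b k) * inner ℂ (b k) f) ∘ g) (inner ℂ (e l) f) := by
    rw [hg.hasSum_iff]
    · exact h1
    · intro k hk
      rw [hf k, mul_zero]
      rintro ⟨n, hn | hn⟩
      · exact hk ⟨(n, false), by simp [g, hn]⟩
      · exact hk ⟨(n, true), by simp [g, hn]⟩
  have h3 := h2.prod_fiberwise (fun n => hasSum_fintype _)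
  have hc : ((cf l : ℝ) : ℂ) ≠ 0 := by exact_mod_cast cf_ne hl
  have h4 := h3.div_const ((cf l : ℝ) : ℂ)
  refine hasSum_congr' h4 (fun n => ?_)
  simp only [Fintype.sum_bool, Function.comp, g, if_true, Bool.false_eq_true, if_false]
  rw [inner_eb hl, inner_eb hl, sg_succ, sg_even (tz_even n)]
  unfold a0 a1
  have e1 : ((l - t n : ℝ) : ℂ) ≠ 0 := by
    have := hl (tz n)
    rw [tz_cast] at this
    exact_mod_cast sub_ne_zero.2 this
  have e2 : ((l - t n - 1 : ℝ) : ℂ) ≠ 0 := by
    have := hl (tz n + 1)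
    push_cast at this
    rw [tz_cast] at this
    have h5 : l - t n - 1 ≠ 0 := fun h6 => this (by linarith)
    exact_mod_cast h5
  have e3 : ((l - ((tz n : ℤ) : ℝ) : ℝ) : ℂ) = ((l - t n : ℝ) : ℂ) := by rw [tz_cast]
  have e4 : ((l - ((tz n + 1 : ℤ) : ℝ) : ℝ) : ℂ) = ((l - t n - 1 : ℝ) : ℂ) := by
    push_cast
    rw [tz_cast']
    ring
  rw [Complex.ofReal_mul, Complex.ofReal_mul, Complex.ofReal_div, Complex.ofReal_div, e3, e4]
  field_simp
  push_cast
  ring

/-- the functional is absolutely convergent on the vectors vanishing at the additional points -/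
lemma sum_bd {α β : ℕ → ℂ} {C : ℝ} (hα : ∀ n, ‖α n‖ ≤ C) (hβ : ∀ n, ‖β n‖ ≤ C)
    (h : ∀ n, HasSum (fun m => α m / ((τ n - t m : ℝ) : ℂ) + β m / ((τ n - t m - 1 : ℝ) : ℂ)) 0)
    (n : ℕ) : ‖α n + β n‖ ≤ 3 * C * p n := by
  have hC : 0 ≤ C := (norm_nonneg _).trans (hα 0)
  have hkn := κ_ge n
  have hpn := p_pos n
  have hk1 : ((κ n : ℝ) : ℂ) ≠ 0 := by
    have : κ n ≠ 0 := by linarith
    exact_mod_cast this
  have hk2 : ((κ n - 1 : ℝ) : ℂ) ≠ 0 := by
    have : κ n - 1 ≠ 0 := by linarith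
    exact_mod_cast this
  set X : ℂ := α n / ((κ n : ℝ) : ℂ) + β n / ((κ n - 1 : ℝ) : ℂ) with hX
  have hXb : ‖X‖ ≤ 4 * C * p n ^ 3 * (1 / 99) := by
    have h1 := (h n).sub (hasSum_ite_eq n X)
    rw [zero_sub] at h1
    have h2 : ∀ m, ‖(α m / ((τ n - t m : ℝ) : ℂ) + β m / ((τ n - t m - 1 : ℝ) : ℂ)) -
        (if m = n then X else 0)‖ ≤ 4 * C * p n ^ 3 * p m := by
      intro m
      have hpm := p_pos m
      split_ifs with hm
      · subst hm
        have e1 : τ m - t m = κ m := by unfold τ; ring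
        rw [e1, ← hX, sub_self, norm_zero]
        positivity
      · rw [sub_zero]
        obtain ⟨g1, g2, -, -⟩ := D_inv hm
        have g3 : ‖α m / ((τ n - t m : ℝ) : ℂ)‖ ≤ C * (2 * (p n ^ 3 * p m)) := by
          rw [div_eq_mul_inv, norm_mul]
          apply mul_le_mul (hα m) _ (norm_nonneg _) hC
          rw [← Complex.ofReal_inv, Complex.norm_real]
          exact g1
        have g4 : ‖β m / ((τ n - t m - 1 : ℝ) : ℂ)‖ ≤ C * (2 * (p n ^ 3 * p m)) := by
          rw [div_eq_mul_inv, norm_mul]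
          apply mul_le_mul (hβ m) _ (norm_nonneg _) hC
          rw [← Complex.ofReal_inv, Complex.norm_real]
          exact g2
        have g5 := norm_add_le (α m / ((τ n - t m : ℝ) : ℂ)) (β m / ((τ n - t m - 1 : ℝ) : ℂ))
        linarith
    have h3 := tsum_of_norm_bounded (summable_p.hasSum.mul_left (4 * C * p n ^ 3)) h2
    rw [h1.tsum_eq, norm_neg] at h3
    have h4 := tsum_p
    have h5 : 0 ≤ 4 * C * p n ^ 3 := by positivity
    exact h3.trans (mul_le_mul_of_nonneg_left h4 h5)
  have h5 : α n + β n = ((κ n : ℝ) : ℂ) * X - β n / ((κ n - 1 : ℝ) : ℂ) := by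
    rw [hX]
    have h6 : ((κ n - 1 : ℝ) : ℂ) = ((κ n : ℝ) : ℂ) - 1 := by push_cast; ring
    rw [h6] at hk2 ⊢
    field_simp
    ring
  rw [h5]
  have h6 : ‖((κ n : ℝ) : ℂ) * X‖ ≤ κ n * (4 * C * p n ^ 3 * (1 / 99)) := by
    rw [norm_mul, Complex.norm_real, Real.norm_eq_abs, abs_of_pos (by linarith : 0 < κ n)]
    apply mul_le_mul_of_nonneg_left hXb (by linarith)
  have h7 : ‖β n / ((κ n - 1 : ℝ) : ℂ)‖ ≤ C * (2 * p n) := by
    rw [div_eq_mul_inv, norm_mul]
    apply mul_le_mul (hβ n) _ (norm_nonneg _) hC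
    rw [← Complex.ofReal_inv, Complex.norm_real, Real.norm_eq_abs, abs_inv,
      abs_of_pos (by linarith : 0 < κ n - 1)]
    have h8 := u_ge n
    have h9 : 2 * p n = (u n / 2)⁻¹ := by unfold p; field_simp
    rw [h9]
    apply inv_anti₀ (by linarith)
    unfold κ
    linarith
  have h8 := norm_sub_le (((κ n : ℝ) : ℂ) * X) (β n / ((κ n - 1 : ℝ) : ℂ))
  have h9 : κ n * (4 * C * p n ^ 3 * (1 / 99)) ≤ C * p n := by
    have g1 := κ_le n
    have g2 := pu n
    have g3 := p_le n
    have g4 := u_pos n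
    calc κ n * (4 * C * p n ^ 3 * (1 / 99)) ≤ (101 / 100 * u n) * (4 * C * p n ^ 3 * (1 / 99)) := by
          gcongr
      _ = (101 / 100) * 4 * (1 / 99) * (p n * u n) * p n * (C * p n) := by ring
      _ ≤ 1 * (C * p n) := by
        rw [g2]
        have : 0 ≤ C * p n := by positivity
        apply mul_le_mul_of_nonneg_right _ this
        linarith
      _ = _ := one_mul _
  linarith

/-- the functional as a limit -/
lemma tendsto_fun {α β : ℕ → ℂ} {C : ℝ} (hβ : ∀ n, ‖β n‖ ≤ C)
    (h : ∀ n, ‖α n + β n‖ ≤ 3 * C * p n) {w : ℕ → ℝ} (hw : Tendsto w atTop atTop)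
    (hw0 : ∀ j, 0 < w j) :
    Tendsto (fun j => ∑' n, ((w j : ℝ) : ℂ) * (α n / ((w j + t n : ℝ) : ℂ) +
      β n / ((w j + t n + 1 : ℝ) : ℂ))) atTop (𝓝 (∑' n, (α n + β n))) := by
  have hC : 0 ≤ C := (norm_nonneg _).trans (hβ 0)
  have key : ∀ j n, ((w j : ℝ) : ℂ) * (α n / ((w j + t n : ℝ) : ℂ) +
      β n / ((w j + t n + 1 : ℝ) : ℂ)) = (α n + β n) * ((w j / (w j + t n) : ℝ) : ℂ) -
      β n * ((w j / ((w j + t n) * (w j + t n + 1)) : ℝ) : ℂ) := by
    intro j n
    have h1 := hw0 j
    have h2 := t_pos n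
    have e1 : ((w j + t n : ℝ) : ℂ) ≠ 0 := by
      have : w j + t n ≠ 0 := by linarith
      exact_mod_cast this
    have e2 : ((w j + t n + 1 : ℝ) : ℂ) ≠ 0 := by
      have : w j + t n + 1 ≠ 0 := by linarith
      exact_mod_cast this
    rw [Complex.ofReal_div, Complex.ofReal_div, Complex.ofReal_mul]
    have e3 : ((w j + t n + 1 : ℝ) : ℂ) = ((w j + t n : ℝ) : ℂ) + 1 := by push_cast; ring
    rw [e3] at e2 ⊢
    field_simp
    ring
  refine tendsto_tsum_of_dominated_convergence (bound := fun n => 4 * C * p n)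
    (summable_p.mul_left _) (fun n => ?_) (Filter.Eventually.of_forall (fun j n => ?_))
  · simp only [key]
    have h1 : Tendsto (fun j => w j + t n) atTop atTop := tendsto_atTop_add_const_right _ _ hw
    have h2 : Tendsto (fun j => w j / (w j + t n)) atTop (𝓝 1) := by
      have h3 : Tendsto (fun j => 1 - t n * (w j + t n)⁻¹) atTop (𝓝 (1 - t n * 0)) :=
        tendsto_const_nhds.sub (h1.inv_tendsto_atTop.const_mul _)
      rw [mul_zero, sub_zero] at h3
      refine h3.congr (fun j => ?_)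
      have h4 := hw0 j
      have h5 := t_pos n
      have h6 : w j + t n ≠ 0 := by linarith
      field_simp
      ring
    have h3 : Tendsto (fun j => w j / ((w j + t n) * (w j + t n + 1))) atTop (𝓝 0) := by
      have h4 : Tendsto (fun j => (w j / (w j + t n)) * (w j + t n + 1)⁻¹) atTop (𝓝 (1 * 0)) :=
        h2.mul (tendsto_atTop_add_const_right _ _ h1).inv_tendsto_atTop
      rw [mul_zero] at h4
      refine h4.congr (fun j => ?_)
      have h5 := hw0 j
      have h6 := t_pos n
      have h7 : w j + t n ≠ 0 := by linarith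
      have h8 : w j + t n + 1 ≠ 0 := by linarith
      field_simp
    have h4 : Tendsto (fun j => (α n + β n) * ((w j / (w j + t n) : ℝ) : ℂ) -
        β n * ((w j / ((w j + t n) * (w j + t n + 1)) : ℝ) : ℂ)) atTop
        (𝓝 ((α n + β n) * ((1 : ℝ) : ℂ) - β n * ((0 : ℝ) : ℂ))) :=
      (((Complex.continuous_ofReal.tendsto _).comp h2).const_mul _).sub
        (((Complex.continuous_ofReal.tendsto _).comp h3).const_mul _)
    simpa using h4
  · rw [key]
    have h1 := hw0 j
    have h2 := t_ge n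
    have h3 : ‖(α n + β n) * ((w j / (w j + t n) : ℝ) : ℂ)‖ ≤ 3 * C * p n := by
      rw [norm_mul, Complex.norm_real, Real.norm_eq_abs,
        abs_of_pos (div_pos h1 (by linarith))]
      have h4 : w j / (w j + t n) ≤ 1 := by
        rw [div_le_one (by linarith)]; linarith
      calc ‖α n + β n‖ * (w j / (w j + t n)) ≤ ‖α n + β n‖ * 1 := by gcongr
        _ ≤ _ := by rw [mul_one]; exact h n
    have h4 : ‖β n * ((w j / ((w j + t n) * (w j + t n + 1)) : ℝ) : ℂ)‖ ≤ C * p n := by
      rw [norm_mul, Complex.norm_real, Real.norm_eq_abs,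
        abs_of_pos (div_pos h1 (by have : 0 < w j + t n := by linarith
                                   positivity))]
      apply mul_le_mul (hβ n) _ _ hC
      · have h5 : w j / ((w j + t n) * (w j + t n + 1)) ≤ (t n)⁻¹ := by
          rw [div_le_iff₀ (by have : 0 < w j + t n := by linarith
                              positivity)]
          have h6 : (t n)⁻¹ * ((w j + t n) * (w j + t n + 1)) =
              (w j + t n) * ((w j + t n + 1) / t n) := by
            field_simp
          rw [h6]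
          have h7 : 1 ≤ (w j + t n + 1) / t n := by
            rw [le_div_iff₀ (by linarith)]; linarith
          calc w j ≤ w j + t n := by linarith
            _ ≤ _ := le_mul_of_one_le_right (by linarith) h7
        refine h5.trans ?_
        rw [t_inv]
        have h6 := p_pos n
        have h7 := p_le n
        calc p n ^ 4 ≤ p n ^ 1 := pow_le_pow_of_le_one h6.le (by linarith) (by norm_num)
          _ = p n := pow_one _
      · have : 0 < w j + t n := by linarith
        positivity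
    have h5 := norm_sub_le ((α n + β n) * ((w j / (w j + t n) : ℝ) : ℂ))
      (β n * ((w j / ((w j + t n) * (w j + t n + 1)) : ℝ) : ℂ))
    linarith

lemma b_inner (j k : ℤ) : inner ℂ (b j) (b k) = if j = k then (1 : ℂ) else 0 :=
  (orthonormal_iff_ite.1 b.orthonormal) j k

/-- vectors with given coefficients at the poles -/
theorem exists_vec {α β : ℕ → ℝ} {C : ℝ} (hα : ∀ n, |α n| ≤ C * p n) (hβ : ∀ n, |β n| ≤ C * p n) :
    ∃ f : H, (∀ n, a0 f n = (α n : ℂ)) ∧ (∀ n, a1 f n = (β n : ℂ)) ∧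
      ∀ k, k ∉ P → inner ℂ (b k) f = 0 := by
  have hs : Summable (fun n => (α n : ℂ) • b (tz n) - (β n : ℂ) • b (tz n + 1)) := by
    refine Summable.of_norm_bounded (summable_p.mul_left (2 * C)) (fun n => ?_)
    have h1 := norm_sub_le ((α n : ℂ) • b (tz n)) ((β n : ℂ) • b (tz n + 1))
    rw [norm_smul, norm_smul, b.orthonormal.1, b.orthonormal.1, mul_one, mul_one,
      Complex.norm_real, Complex.norm_real] at h1
    have h2 := hα n
    have h3 := hβ n
    rw [Real.norm_eq_abs, Real.norm_eq_abs] at h1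
    linarith
  have hin : ∀ k, HasSum (fun n => (α n : ℂ) * inner ℂ (b k) (b (tz n)) -
      (β n : ℂ) * inner ℂ (b k) (b (tz n + 1)))
      (inner ℂ (b k) (∑' n, ((α n : ℂ) • b (tz n) - (β n : ℂ) • b (tz n + 1)))) := by
    intro k
    have h1 := hs.hasSum.mapL (innerSL ℂ (b k))
    simp only [innerSL_apply_apply, inner_sub_right, inner_smul_right] at h1
    exact h1
  refine ⟨∑' n, ((α n : ℂ) • b (tz n) - (β n : ℂ) • b (tz n + 1)), fun m => ?_, fun m => ?_,
    fun k hk => ?_⟩
  · unfold a0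
    refine (hin (tz m)).unique ?_
    have h1 : HasSum (fun n => if n = m then (α m : ℂ) else 0) (α m : ℂ) := hasSum_ite_eq m _
    convert h1 using 1
    ext n
    rw [b_inner, b_inner, if_neg (tz_ne m n)]
    by_cases h : n = m
    · subst h; simp
    · rw [if_neg h, if_neg (fun h2 => h (tz_inj h2).symm)]; simp
  · unfold a1
    rw [neg_eq_iff_eq_neg]
    refine (hin (tz m + 1)).unique ?_
    have h1 : HasSum (fun n => if n = m then -(β m : ℂ) else 0) (-(β m : ℂ)) := hasSum_ite_eq m _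
    convert h1 using 1
    ext n
    rw [b_inner, b_inner, if_neg (fun h => tz_ne n m h.symm)]
    by_cases h : n = m
    · subst h; simp
    · rw [if_neg h, if_neg (fun h2 => h (tz_inj (by linarith [h2] : tz m = tz n)).symm)]; simp
  · refine (hin k).unique ?_
    convert hasSum_zero using 1
    ext n
    rw [b_inner, b_inner, if_neg (fun h => hk ⟨n, Or.inl h⟩), if_neg (fun h => hk ⟨n, Or.inr h⟩)]
    simp

end Pool.Agent.H1.FB
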